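import Mathlib

/-!
Module PIB. Chebyshev upper bound for the prime counting function.
-/

set_option autoImplicit false

namespace Pool.Agent.H7.LG

theorem pib (n : ℕ) : (Nat.primeCounting n : ℝ) * Real.log n ≤ 4 * n := by
  rcases Nat.lt_or_ge n 2 with hn | hn
  · have h0 : n = 0 ∨ n = 1 := by omega
    rcases h0 with rfl | rfl
    · simp
    · simp
  have hn1 : (1 : ℝ) < n := by exact_mod_cast (show 1 < n by omega)
  have hn0 : (0 : ℝ) < n := by linarith
  have h1 := Chebyshev.pi_le_log4_mul_div hn1
  rw [Nat.floor_natCast] at h1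
  have hlog : 0 < Real.log n := Real.log_pos hn1
  have hs : Real.log (Real.sqrt n) = Real.log n / 2 := Real.log_sqrt hn0.le
  rw [hs] at h1
  have hl4 : Real.log 4 ≤ 1.39 := by
    have h3 : Real.log 4 = 2 * Real.log 2 := by
      rw [show (4 : ℝ) = 2 ^ 2 by norm_num, Real.log_pow]; push_cast; ring
    have := Real.log_two_lt_d9
    linarith
  have hsq : Real.sqrt n * Real.log n ≤ n := by
    have hs0 : 0 < Real.sqrt n := Real.sqrt_pos.mpr hn0
    have h4 : Real.log (Real.sqrt n) ≤ Real.sqrt n / 2 := by
      have h5 := Real.log_le_sub_one_of_pos (show 0 < Real.sqrt n / 2 by positivity)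
      rw [Real.log_div hs0.ne' (by norm_num)] at h5
      have := Real.log_two_lt_d9
      linarith
    rw [hs] at h4
    calc Real.sqrt n * Real.log n ≤ Real.sqrt n * Real.sqrt n := by
          apply mul_le_mul_of_nonneg_left (by linarith) hs0.le
      _ = n := Real.mul_self_sqrt hn0.le
  calc (Nat.primeCounting n : ℝ) * Real.log n
      ≤ (Real.log 4 * n / (Real.log n / 2) + Real.sqrt n) * Real.log n := by gcongr
    _ = 2 * Real.log 4 * n + Real.sqrt n * Real.log n := by field_simp
    _ ≤ 2 * 1.39 * n + n := by gcongr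
    _ ≤ 4 * n := by linarith

end Pool.Agent.H7.LG
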