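import Pool.Agent.H7.LG.Defs
import Pool.Agent.H7.LG.Pib

/-!
Module SDC. Integers up to `y` without prime factor in `(w, z]`: smooth ones, and multiples `s p` of a
prime `p > z`.

Proof: let `n ∈ sv y w z`. If all prime factors of `n` are `≤ w` then `n ∈ sm y w`. Otherwise some
prime `p ∣ n` has `w < p`, hence `z < p`; write `n = p * s`; then `1 ≤ s`, `s * z ≤ s * p = n ≤ y`, so
`s ∈ Finset.Icc 1 (y / z)`, and `p ≤ y / s`.
-/

set_option autoImplicit false

namespace Pool.Agent.H7.LG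

open Finset in
theorem sdc_subset (y w z : ℕ) (hz : 2 ≤ z) :
    sv y w z ⊆ sm y w ∪ (Finset.Icc 1 (y / z)).biUnion
      (fun s => (Nat.primesLE (y / s)).image (fun p => p * s)) := by
  intro n hn
  rw [mem_sv] at hn
  obtain ⟨⟨h1, h2⟩, h3⟩ := hn
  rw [Finset.mem_union]
  by_cases hs : ∀ p : ℕ, p.Prime → p ∣ n → p ≤ w
  · left
    exact mem_sm.2 ⟨⟨h1, h2⟩, hs⟩
  · right
    push Not at hs
    obtain ⟨p, hp, ⟨s, rfl⟩, hw⟩ := hs
    have hzp : z < p := (h3 p hp (Dvd.intro s rfl)).resolve_left (by omega)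
    have hs1 : 1 ≤ s := by
      rcases Nat.eq_zero_or_pos s with h | h
      · rw [h] at h1
        omega
      · exact h
    rw [Finset.mem_biUnion]
    refine ⟨s, ?_, ?_⟩
    · rw [Finset.mem_Icc]
      refine ⟨hs1, ?_⟩
      rw [Nat.le_div_iff_mul_le (by omega)]
      calc s * z ≤ s * p := Nat.mul_le_mul_left _ hzp.le
        _ = p * s := Nat.mul_comm _ _
        _ ≤ y := h2
    · rw [Finset.mem_image]
      refine ⟨p, ?_, rfl⟩
      rw [Nat.mem_primesLE]
      exact ⟨(Nat.le_div_iff_mul_le (by omega)).2 h2, hp⟩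

theorem sdc_card (y w z : ℕ) (hz : 2 ≤ z) :
    (sv y w z).card ≤ (sm y w).card + ∑ s ∈ Finset.Icc 1 (y / z), Nat.primeCounting (y / s) := by
  classical
  refine (Finset.card_le_card (sdc_subset y w z hz)).trans ?_
  refine (Finset.card_union_le _ _).trans ?_
  refine Nat.add_le_add_left ?_ _
  refine Finset.card_biUnion_le.trans ?_
  refine Finset.sum_le_sum fun s _ => ?_
  refine Finset.card_image_le.trans ?_
  rw [Nat.primesLE_card_eq_primeCounting]

theorem sdc (y w z : ℕ) (hz : 2 ≤ z) (hzy : z ≤ y) :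
    ((sv y w z).card : ℝ) * Real.log z ≤
      (sm y w).card * Real.log z + 4 * y * (1 + Real.log ((y : ℝ) / z)) := by
  have hlz : 0 ≤ Real.log z := Real.log_natCast_nonneg z
  have hz0 : (0 : ℝ) < z := by exact_mod_cast (by omega : 0 < z)
  have hy0 : (0 : ℝ) ≤ y := Nat.cast_nonneg _
  have h1 : ((sv y w z).card : ℝ) ≤
      (sm y w).card + ∑ s ∈ Finset.Icc 1 (y / z), (Nat.primeCounting (y / s) : ℝ) := by
    exact_mod_cast sdc_card y w z hz
  have h2 : ∀ s ∈ Finset.Icc 1 (y / z),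
      (Nat.primeCounting (y / s) : ℝ) * Real.log z ≤ 4 * y * ((s : ℝ))⁻¹ := by
    intro s hs
    rw [Finset.mem_Icc] at hs
    have hsz : z ≤ y / s := by
      rw [Nat.le_div_iff_mul_le (by omega), Nat.mul_comm]
      exact (Nat.le_div_iff_mul_le (by omega)).1 hs.2
    have h3 : Real.log z ≤ Real.log ((y / s : ℕ) : ℝ) :=
      Real.log_le_log hz0 (by exact_mod_cast hsz)
    have h4 : ((y / s : ℕ) : ℝ) ≤ (y : ℝ) / s := Nat.cast_div_le
    calc (Nat.primeCounting (y / s) : ℝ) * Real.log z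
        ≤ (Nat.primeCounting (y / s) : ℝ) * Real.log ((y / s : ℕ) : ℝ) :=
          mul_le_mul_of_nonneg_left h3 (Nat.cast_nonneg _)
      _ ≤ 4 * ((y / s : ℕ) : ℝ) := pib (y / s)
      _ ≤ 4 * ((y : ℝ) / s) := by linarith
      _ = 4 * y * ((s : ℝ))⁻¹ := by rw [div_eq_mul_inv]; ring
  have h5 : ∑ s ∈ Finset.Icc 1 (y / z), ((s : ℝ))⁻¹ ≤ 1 + Real.log ((y : ℝ) / z) := by
    have h6 := harmonic_le_one_add_log (y / z)
    rw [harmonic_eq_sum_Icc] at h6
    push_cast at h6
    refine h6.trans ?_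
    have h7 : (1 : ℝ) ≤ ((y / z : ℕ) : ℝ) := by
      exact_mod_cast (Nat.one_le_div_iff (by omega)).2 hzy
    have h8 : ((y / z : ℕ) : ℝ) ≤ (y : ℝ) / z := Nat.cast_div_le
    have h9 := Real.log_le_log (by linarith) h8
    linarith
  calc ((sv y w z).card : ℝ) * Real.log z
      ≤ ((sm y w).card + ∑ s ∈ Finset.Icc 1 (y / z), (Nat.primeCounting (y / s) : ℝ)) *
          Real.log z := mul_le_mul_of_nonneg_right h1 hlz
    _ = (sm y w).card * Real.log z +
          ∑ s ∈ Finset.Icc 1 (y / z), (Nat.primeCounting (y / s) : ℝ) * Real.log z := by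
        rw [add_mul, Finset.sum_mul]
    _ ≤ (sm y w).card * Real.log z + ∑ s ∈ Finset.Icc 1 (y / z), 4 * y * ((s : ℝ))⁻¹ := by
        have := Finset.sum_le_sum h2
        linarith
    _ = (sm y w).card * Real.log z + 4 * y * ∑ s ∈ Finset.Icc 1 (y / z), ((s : ℝ))⁻¹ := by
        rw [Finset.mul_sum]
    _ ≤ (sm y w).card * Real.log z + 4 * y * (1 + Real.log ((y : ℝ) / z)) := by
        have := mul_le_mul_of_nonneg_left h5 (by linarith : (0 : ℝ) ≤ 4 * y)
        linarith

end Pool.Agent.H7.LG
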