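import Pool.Agent.H7.LG.Defs
import Pool.Agent.H67.GT.FLM

/-!
Module AVG. Choosing residue classes greedily.
-/

set_option autoImplicit false

namespace Pool.Agent.H7.LG

open Pool.Agent.H67.GT

/-- among the residue classes modulo `p` one contains at least the average number of elements -/
lemma Avg_class (T : Finset ℕ) (p : ℕ) (hp : 0 < p) : ∃ a : ℕ, a < p ∧
    (T.card : ℝ) ≤ p * (T.filter (fun j : ℕ => j % p = a)).card := by
  by_contra hcon
  push Not at hcon
  have h1 : T.card = ∑ a ∈ Finset.range p, (T.filter (fun j : ℕ => j % p = a)).card :=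
    Finset.card_eq_sum_card_fiberwise (f := fun j : ℕ => j % p) (t := Finset.range p)
      (fun j _ => by
        simp only [Finset.coe_range, Set.mem_Iio]
        exact Nat.mod_lt _ hp)
  have h2 : (p : ℝ) * T.card < p * T.card := by
    calc (p : ℝ) * T.card = p * ∑ a ∈ Finset.range p, ((T.filter (fun j : ℕ => j % p = a)).card : ℝ) := by
          rw [h1]; push_cast; rfl
      _ = ∑ a ∈ Finset.range p, (p : ℝ) * (T.filter (fun j : ℕ => j % p = a)).card := by
          rw [Finset.mul_sum]
      _ < ∑ a ∈ Finset.range p, (T.card : ℝ) := by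
          apply Finset.sum_lt_sum_of_nonempty
          · exact ⟨0, Finset.mem_range.2 hp⟩
          · intro a ha
            exact hcon a (Finset.mem_range.1 ha)
      _ = p * T.card := by rw [Finset.sum_const, Finset.card_range, nsmul_eq_mul]
  exact lt_irrefl _ h2

theorem avg (S : Finset ℕ) (w : ℕ) : ∃ r : ℕ → ℕ,
    ((rem S r w).card : ℝ) ≤ S.card * V Set.univ w := by
  induction w with
  | zero =>
    refine ⟨fun _ => 0, ?_⟩
    rw [FLM.V_zero, mul_one]
    exact_mod_cast Finset.card_le_card (fun j hj => (mem_rem.1 hj).1)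
  | succ w ih =>
    obtain ⟨r, hr⟩ := ih
    by_cases hp : (w + 1).Prime
    · obtain ⟨a, hap, ha⟩ := Avg_class (rem S r w) (w + 1) (Nat.succ_pos w)
      refine ⟨Function.update r (w + 1) a, ?_⟩
      have hsub : rem S (Function.update r (w + 1) a) (w + 1) ⊆
          (rem S r w).filter (fun j : ℕ => ¬ j % (w + 1) = a) := by
        intro j hj
        rw [mem_rem] at hj
        rw [Finset.mem_filter, mem_rem]
        refine ⟨⟨hj.1, fun p hpp hpw => ?_⟩, fun hja => ?_⟩
        · have h1 := hj.2 p hpp (by omega)
          rw [Function.update_of_ne (by omega)] at h1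
          exact h1
        · have h1 := hj.2 (w + 1) hp le_rfl
          rw [Function.update_self] at h1
          apply h1
          rw [Nat.ModEq, hja, Nat.mod_eq_of_lt hap]
      have h2 : ((rem S r w).filter (fun j : ℕ => j % (w + 1) = a)).card +
          ((rem S r w).filter (fun j : ℕ => ¬ j % (w + 1) = a)).card = (rem S r w).card :=
        Finset.card_filter_add_card_filter_not _
      have h3 : (((rem S r w).filter (fun j : ℕ => j % (w + 1) = a)).card : ℝ) +
          ((rem S r w).filter (fun j : ℕ => ¬ j % (w + 1) = a)).card = (rem S r w).card := by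
        exact_mod_cast h2
      have h4 : ((rem S (Function.update r (w + 1) a) (w + 1)).card : ℝ) ≤
          ((rem S r w).filter (fun j : ℕ => ¬ j % (w + 1) = a)).card := by
        exact_mod_cast Finset.card_le_card hsub
      rw [FLM.V_succ ⟨hp, Set.mem_univ _⟩]
      have hp0 : (0 : ℝ) < ((w + 1 : ℕ) : ℝ) := by exact_mod_cast Nat.succ_pos w
      have h5 : ((rem S r w).card : ℝ) / ((w + 1 : ℕ) : ℝ) ≤
          ((rem S r w).filter (fun j : ℕ => j % (w + 1) = a)).card := by
        rw [div_le_iff₀ hp0, mul_comm]
        exact ha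
      have h6 : 0 < 1 - 1 / ((w + 1 : ℕ) : ℝ) := FLM.factor_pos hp
      calc ((rem S (Function.update r (w + 1) a) (w + 1)).card : ℝ)
          ≤ (rem S r w).card - (rem S r w).card / ((w + 1 : ℕ) : ℝ) := by linarith
        _ = (rem S r w).card * (1 - 1 / ((w + 1 : ℕ) : ℝ)) := by ring
        _ ≤ (S.card * V Set.univ w) * (1 - 1 / ((w + 1 : ℕ) : ℝ)) := by gcongr
        _ = _ := by ring
    · refine ⟨r, ?_⟩
      rw [FLM.V_succ_not (fun h => hp h.1)]
      refine le_trans ?_ hr
      exact_mod_cast Finset.card_le_card (fun j hj => by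
        rw [mem_rem] at hj ⊢
        exact ⟨hj.1, fun p hpp hpw => hj.2 p hpp (by omega)⟩)

end Pool.Agent.H7.LG
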