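import Pool.Agent.H7.LG.Defs

/-!
Module CRT. Chinese remainder theorem.
-/

set_option autoImplicit false

namespace Pool.Agent.H7.LG

theorem crt (r : ℕ → ℕ) (z : ℕ) : ∃ a : ℕ, a < primorial z ∧
    ∀ p : ℕ, p.Prime → p ≤ z → ∀ m j : ℕ, (p ∣ a + m * primorial z + j ↔ j ≡ r p [MOD p]) := by
  obtain ⟨k, hk⟩ := Nat.chineseRemainderOfFinset (fun p : ℕ => p - r p % p) (fun p : ℕ => p)
    ((Finset.Icc 1 z).filter Nat.Prime)
    (by
      intro p hp
      rw [Finset.mem_filter] at hp
      exact hp.2.ne_zero)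
    (by
      intro p hp q hq hpq
      simp only [Finset.coe_filter, Set.mem_ofPred_eq] at hp hq
      exact (Nat.coprime_primes hp.2 hq.2).2 hpq)
  refine ⟨k % primorial z, Nat.mod_lt _ (primorial_pos z), fun p hp hpz m j => ?_⟩
  have hpP : p ∣ primorial z := by
    unfold primorial
    apply Finset.dvd_prod_of_mem (fun q : ℕ => q)
    rw [Finset.mem_filter, Finset.mem_range]
    exact ⟨by omega, hp⟩
  have h1 : k % primorial z ≡ p - r p % p [MOD p] := by
    have h2 := hk p (by
      rw [Finset.mem_filter, Finset.mem_Icc]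
      exact ⟨⟨hp.one_lt.le, hpz⟩, hp⟩)
    exact ((Nat.mod_modEq k (primorial z)).of_dvd hpP).trans h2
  have hlt : r p % p < p := Nat.mod_lt _ hp.pos
  have h3 : k % primorial z + r p ≡ 0 [MOD p] := by
    calc k % primorial z + r p ≡ (p - r p % p) + r p % p [MOD p] :=
          h1.add (Nat.mod_modEq (r p) p).symm
      _ = p := Nat.sub_add_cancel hlt.le
      _ ≡ 0 [MOD p] := by
          rw [Nat.modEq_zero_iff_dvd]
  have h4 : k % primorial z + m * primorial z + j ≡ k % primorial z + j [MOD p] := by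
    have h5 : m * primorial z ≡ 0 [MOD p] := (Nat.modEq_zero_iff_dvd).2 (Dvd.dvd.mul_left hpP m)
    calc k % primorial z + m * primorial z + j ≡ k % primorial z + 0 + j [MOD p] :=
          ((Nat.ModEq.refl _).add h5).add (Nat.ModEq.refl j)
      _ = k % primorial z + j := by rw [add_zero]
  rw [← Nat.modEq_zero_iff_dvd]
  constructor
  · intro h
    have h6 : k % primorial z + j ≡ k % primorial z + r p [MOD p] :=
      (h4.symm.trans h).trans h3.symm
    exact Nat.ModEq.add_left_cancel' _ h6
  · intro h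
    exact h4.trans (((Nat.ModEq.refl _).add h).trans h3)

end Pool.Agent.H7.LG
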