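import Pool.Agent.H67.GT.Defs

/-!
# Long prime-free intervals (project LG, MP_028722_nt): definitions
-/

set_option autoImplicit false

namespace Pool.Agent.H7.LG

open Pool.Agent.H67.GT

/-- The `w`-smooth integers in `[1, y]`. -/
noncomputable def sm (y w : ℕ) : Finset ℕ := by
  classical exact (Finset.Icc 1 y).filter (fun n : ℕ => ∀ p : ℕ, p.Prime → p ∣ n → p ≤ w)

/-- The integers in `[1, y]` without prime factor in `(w, z]`. -/
noncomputable def sv (y w z : ℕ) : Finset ℕ := by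
  classical exact (Finset.Icc 1 y).filter (fun n : ℕ => ∀ p : ℕ, p.Prime → p ∣ n → p ≤ w ∨ z < p)

/-- The elements of `S` outside the residue class of `r p` for all primes `p ≤ z`. -/
noncomputable def rem (S : Finset ℕ) (r : ℕ → ℕ) (z : ℕ) : Finset ℕ := by
  classical exact S.filter (fun j : ℕ => ∀ p : ℕ, p.Prime → p ≤ z → ¬ j ≡ r p [MOD p])

/-- The number of `n` in `(x, x + h]` such that `(n, n + y]` contains no prime. -/
noncomputable def cnt (x h y : ℕ) : ℕ := by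
  classical exact ((Finset.Ioc x (x + h)).filter
    (fun n : ℕ => ∀ p : ℕ, p.Prime → n < p → n + y < p)).card

/-- `log (16 + L)` -/
noncomputable def l1 (L : ℝ) : ℝ := Real.log (16 + L)

/-- `log log (16 + L)` -/
noncomputable def l2 (L : ℝ) : ℝ := Real.log (Real.log (16 + L))

lemma l1_ge {L : ℝ} (hL : 1 ≤ L) : 2.75 ≤ l1 L := by
  unfold l1
  have h1 : Real.log 16 ≤ Real.log (16 + L) := Real.log_le_log (by norm_num) (by linarith)
  have h2 : Real.log 16 = 4 * Real.log 2 := by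
    rw [show (16 : ℝ) = 2 ^ 4 by norm_num, Real.log_pow]; push_cast; ring
  have := Real.log_two_gt_d9
  linarith

lemma exp_l1 {L : ℝ} (hL : 1 ≤ L) : Real.exp (l1 L) = 16 + L := Real.exp_log (by linarith)

lemma exp_l2 {L : ℝ} (hL : 1 ≤ L) : Real.exp (l2 L) = l1 L := Real.exp_log (by
  have := l1_ge hL
  unfold l1 at this
  linarith)

lemma l2_ge {L : ℝ} (hL : 1 ≤ L) : 1 ≤ l2 L := by
  have h1 := l1_ge hL
  rw [← Real.exp_le_exp, exp_l2 hL]
  have := Real.exp_one_lt_d9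
  linarith

lemma l2_le {L : ℝ} (hL : 1 ≤ L) : l2 L ≤ l1 L := by
  have h1 := Real.add_one_le_exp (l2 L)
  rw [exp_l2 hL] at h1
  linarith

lemma mem_sm {y w n : ℕ} : n ∈ sm y w ↔ (1 ≤ n ∧ n ≤ y) ∧ ∀ p : ℕ, p.Prime → p ∣ n → p ≤ w := by
  classical
  unfold sm
  rw [Finset.mem_filter, Finset.mem_Icc]

lemma mem_sv {y w z n : ℕ} :
    n ∈ sv y w z ↔ (1 ≤ n ∧ n ≤ y) ∧ ∀ p : ℕ, p.Prime → p ∣ n → p ≤ w ∨ z < p := by
  classical
  unfold sv
  rw [Finset.mem_filter, Finset.mem_Icc]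

lemma mem_rem {S : Finset ℕ} {r : ℕ → ℕ} {z j : ℕ} :
    j ∈ rem S r z ↔ j ∈ S ∧ ∀ p : ℕ, p.Prime → p ≤ z → ¬ j ≡ r p [MOD p] := by
  classical
  unfold rem
  rw [Finset.mem_filter]

/-- a set of `n` in `(x, x + h]` with prime-free `(n, n + y]` bounds `cnt` from below -/
lemma card_le_cnt {x h y : ℕ} (T : Finset ℕ)
    (hT : ∀ n ∈ T, x < n ∧ n ≤ x + h ∧ ∀ p : ℕ, p.Prime → n < p → n + y < p) :
    T.card ≤ cnt x h y := by
  classical
  unfold cnt
  apply Finset.card_le_card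
  intro n hn
  rw [Finset.mem_filter, Finset.mem_Ioc]
  exact ⟨⟨(hT n hn).1, (hT n hn).2.1⟩, (hT n hn).2.2⟩

end Pool.Agent.H7.LG
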