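import Pool.Agent.H93.DC.Smooth

/-!
Module EUL. Rankin's Euler product with a general parameter `κ`.

Proof (see `Pool/Agent/H93/DC/Smooth.lean`, lemma `rankin`, for the same computation with `κ = 1`).
Put `η = κ / log w`, `0 < η ≤ 1/4`, and `b = p ^ (-(1 - η))`, `a = p⁻¹`, `a ≤ b ≤ 2 ^ (-(3/4)) ≤ 3/4`
for every prime `p ≤ w`. By `factor_compare` of that file
`(1 - b)⁻¹ ≤ (1 - a)⁻¹ * exp ((b - a) / (1 - b)) ≤ (1 - a)⁻¹ * exp (4 (b - a))`, and
`b - a = p⁻¹ (p ^ η - 1)`, where `p ^ η = exp (η log p)` with `0 ≤ η log p ≤ κ`, so by convexity of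
`exp` on `[0, κ]` (chord: `exp t - 1 ≤ (t/κ) (exp κ - 1)`; `convexOn_exp`, or: `t ↦ (exp t - 1)/t` is
increasing) `p ^ η - 1 ≤ (η log p / κ) (exp κ - 1) ≤ (log p / log w) exp κ`.
Hence the product over `p ∈ (w+1).primesBelow` is at most
`MP (w+1) * exp (4 (exp κ / log w) ∑ log p / p) ≤ MP (w+1) * exp (4 exp κ (log w + 2) / log w)`
(`mertens_upper`), `log w ≥ 4` gives `(log w + 2)/log w ≤ 2`, and `MP_le` gives
`MP (w+1) ≤ 2 exp 6 log (w+1) ≤ 4 exp 6 log w`. So `C = 4 exp 6 ≥ 8` works.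
-/

set_option autoImplicit false

namespace Pool.Agent.H7.LG

open Pool.Agent.H93.DC

theorem Eul_chord {t κ : ℝ} (hκ : 1 ≤ κ) (h0 : 0 ≤ t) (h1 : t ≤ κ) :
    Real.exp t - 1 ≤ t / κ * Real.exp κ := by
  have hk0 : 0 < κ := by linarith
  have hs0 : 0 ≤ t / κ := by positivity
  have hs1 : t / κ ≤ 1 := by rw [div_le_one hk0]; exact h1
  have hc := convexOn_exp.2 (Set.mem_univ (0 : ℝ)) (Set.mem_univ κ)
    (show 0 ≤ 1 - t / κ by linarith) hs0 (by ring)
  simp only [smul_eq_mul, mul_zero, zero_add, Real.exp_zero, mul_one] at hc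
  have e1 : t / κ * κ = t := by field_simp
  rw [e1] at hc
  linarith

theorem eul : ∃ C : ℝ, 1 ≤ C ∧ ∀ (w : ℕ) (κ : ℝ), 2 ≤ w → 1 ≤ κ → 4 * κ ≤ Real.log w →
    ∏ p ∈ (w + 1).primesBelow, (1 - (p : ℝ) ^ (-(1 - κ / Real.log w)))⁻¹ ≤
      C * Real.log w * Real.exp (C * Real.exp κ) := by
  have hexp6 : (7 : ℝ) ≤ Real.exp 6 := by
    have := Real.add_one_le_exp (6 : ℝ)
    linarith
  refine ⟨4 * Real.exp 6, by linarith, ?_⟩
  intro w κ hw hκ hlw
  have hlog4 : 4 ≤ Real.log w := by linarith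
  have hlog0 : 0 < Real.log w := by linarith
  set η := κ / Real.log w with hη
  have hη0 : 0 < η := by positivity
  have hη1 : η ≤ 1 / 4 := by
    rw [hη, div_le_iff₀ hlog0]; linarith
  have hEk : 0 < Real.exp κ := Real.exp_pos κ
  have hfac : ∀ p ∈ (w + 1).primesBelow, (1 - (p : ℝ) ^ (-(1 - η)))⁻¹ ≤
      (1 - (p : ℝ)⁻¹)⁻¹ * Real.exp (4 * (Real.exp κ / Real.log w) * (Real.log p / p)) := by
    intro p hp
    have hpp := Nat.prime_of_mem_primesBelow hp
    have hpY : p < w + 1 := Nat.lt_of_mem_primesBelow hp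
    have hp2 : (2 : ℝ) ≤ p := by exact_mod_cast hpp.two_le
    have hp0 : (0 : ℝ) < p := by linarith
    have hlogp : 0 ≤ Real.log p := Real.log_nonneg (by linarith)
    have hab : (p : ℝ)⁻¹ ≤ (p : ℝ) ^ (-(1 - η)) := by
      rw [← Real.rpow_neg_one]
      apply Real.rpow_le_rpow_of_exponent_le (by linarith)
      linarith
    have hb34 : (p : ℝ) ^ (-(1 - η)) ≤ 3 / 4 := by
      have e1 : (p : ℝ) ^ (-(1 - η)) ≤ (2 : ℝ) ^ (-(1 - η)) := by
        apply Real.rpow_le_rpow_of_nonpos (by norm_num) hp2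
        linarith
      have e2 : (2 : ℝ) ^ (-(1 - η)) ≤ (2 : ℝ) ^ (-(1 / 2 : ℝ)) := by
        apply Real.rpow_le_rpow_of_exponent_le (by norm_num)
        linarith
      have e3 : (2 : ℝ) ^ (-(1 / 2 : ℝ)) ≤ 3 / 4 := by
        rw [Real.rpow_neg (by norm_num), ← Real.sqrt_eq_rpow]
        have : (4 / 3 : ℝ) ≤ Real.sqrt 2 := by
          apply Real.le_sqrt_of_sq_le; norm_num
        calc (Real.sqrt 2)⁻¹ ≤ (4 / 3 : ℝ)⁻¹ := inv_anti₀ (by norm_num) this
          _ = 3 / 4 := by norm_num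
      linarith
    refine (factor_compare hab (by linarith)).trans ?_
    have h1 := one_sub_inv_pos hpp
    gcongr
    rw [div_le_iff₀ (by linarith)]
    have h2 : (p : ℝ) ^ (-(1 - η)) - (p : ℝ)⁻¹ = (p : ℝ)⁻¹ * ((p : ℝ) ^ η - 1) := by
      have : -(1 - η) = -1 + η := by ring
      rw [this, Real.rpow_add hp0, Real.rpow_neg_one]; ring
    have hlogpw : Real.log p ≤ Real.log w :=
      Real.log_le_log hp0 (by exact_mod_cast Nat.lt_succ_iff.mp hpY)
    have hlogle : Real.log p * η ≤ κ := by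
      have e1 : Real.log w * η = κ := by rw [hη]; field_simp
      calc Real.log p * η ≤ Real.log w * η := by gcongr
        _ = κ := e1
    have h3 : (p : ℝ) ^ η - 1 ≤ Real.exp κ / Real.log w * Real.log p := by
      rw [Real.rpow_def_of_pos hp0]
      have h0 : 0 ≤ Real.log p * η := by positivity
      have h4 := Eul_chord hκ h0 hlogle
      have e1 : Real.log p * η / κ = Real.log p / Real.log w := by
        rw [hη]
        have : κ ≠ 0 := by linarith
        field_simp
      rw [e1] at h4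
      calc Real.exp (Real.log p * η) - 1 ≤ Real.log p / Real.log w * Real.exp κ := h4
        _ = Real.exp κ / Real.log w * Real.log p := by ring
    rw [h2]
    have hX : 0 ≤ Real.exp κ / Real.log w := by positivity
    calc (p : ℝ)⁻¹ * ((p : ℝ) ^ η - 1) ≤ (p : ℝ)⁻¹ * (Real.exp κ / Real.log w * Real.log p) := by gcongr
      _ = 4 * (Real.exp κ / Real.log w) * (Real.log p / p) * (1 / 4) := by ring
      _ ≤ 4 * (Real.exp κ / Real.log w) * (Real.log p / p) * (1 - (p : ℝ) ^ (-(1 - η))) := by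
        gcongr; linarith
  have h4 : ∏ p ∈ (w + 1).primesBelow, (1 - (p : ℝ) ^ (-(1 - η)))⁻¹ ≤ MP (w + 1) *
      ∏ p ∈ (w + 1).primesBelow, Real.exp (4 * (Real.exp κ / Real.log w) * (Real.log p / p)) := by
    unfold MP
    rw [← Finset.prod_mul_distrib]
    apply Finset.prod_le_prod
    · intro p hp
      apply inv_nonneg.mpr
      have := pw_prime_lt (s := 1 - η) (by linarith) (Nat.prime_of_mem_primesBelow hp)
      rw [pw_apply, Real.norm_of_nonneg (by positivity)] at this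
      linarith
    · exact hfac
  rw [← Real.exp_sum, ← Finset.mul_sum] at h4
  have h5 := mertens_upper (show 1 ≤ w by omega)
  have h6 : 4 * (Real.exp κ / Real.log w) * ∑ p ∈ (w + 1).primesBelow, Real.log p / p ≤
      8 * Real.exp κ := by
    calc _ ≤ 4 * (Real.exp κ / Real.log w) * (Real.log w + 2) := by gcongr
      _ ≤ 4 * (Real.exp κ / Real.log w) * (2 * Real.log w) := by
        have : Real.log w + 2 ≤ 2 * Real.log w := by linarith
        gcongr
      _ = 8 * Real.exp κ := by field_simp; ring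
  have hMP := MP_pos (w + 1)
  have hMPle : MP (w + 1) ≤ 4 * Real.exp 6 * Real.log w := by
    have e1 := MP_le (Y := w + 1) (by omega)
    have e2 : Real.log ((w + 1 : ℕ) : ℝ) ≤ 2 * Real.log w := by
      have : (2 : ℝ) * Real.log w = Real.log ((w : ℝ) ^ 2) := by
        rw [Real.log_pow]; push_cast; ring
      rw [this]
      apply Real.log_le_log
      · positivity
      · have hw2 : (2 : ℝ) ≤ w := by exact_mod_cast hw
        push_cast
        nlinarith
    calc MP (w + 1) ≤ 2 * Real.exp 6 * Real.log ((w + 1 : ℕ) : ℝ) := e1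
      _ ≤ 2 * Real.exp 6 * (2 * Real.log w) := by gcongr
      _ = _ := by ring
  calc _ ≤ MP (w + 1) * Real.exp (4 * (Real.exp κ / Real.log w) *
        ∑ p ∈ (w + 1).primesBelow, Real.log p / p) := h4
    _ ≤ (4 * Real.exp 6 * Real.log w) * Real.exp (4 * Real.exp 6 * Real.exp κ) := by
      apply mul_le_mul hMPle _ (Real.exp_pos _).le (by positivity)
      apply Real.exp_le_exp.mpr
      refine h6.trans ?_
      have : (8 : ℝ) ≤ 4 * Real.exp 6 := by linarith
      gcongr

end Pool.Agent.H7.LG
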