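import Pool.Agent.H7.LG.Defs

/-!
Module SIEV. Sieve upper bound for primes in a progression modulo `primorial z`.

Proof. `F : FL` with `A = 1` gives `u0 ≥ 1`, `z0 ≥ 3`; `M : Mert` gives `c ≥ 1`. Let
`q = ⌊h ^ (1 / (2 u0))⌋₊`, so `u0 log q ≤ (1/2) log h ≤ log N`, `q ≤ √h` and for `h` large
`q ≥ z0`, `q > log h + 1 > z`, `log q ≥ log h / (4 u0)` (`⌊t⌋₊ ≥ t/2 ≥ √t` for large `t`).
Let `P = {p : ℕ | z < p}` and for a prime `p > z` let `r p` be an integer with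
`b + r p * primorial z ≡ 0 [ZMOD p]` (exists: `primorial z` is coprime to `p > z`, since all its prime
factors are `≤ z`; e.g. `r p = - b * (primorial z)⁻¹` from `Int.exists_mul_emod_eq_one_of_coprime` or
`ZMod` inverse). If `m ∈ Ioc m0 (m0+N)`, `b + m * primorial z` is prime and `> Nat.sqrt h ≥ q`, then no
prime `p ≤ q` divides it, hence `¬ (m:ℤ) ≡ r p [ZMOD p]` for all `p ∈ prs P q`: so
`(m : ℤ)` is `Sifted P r q` and the card is `≤ S P r q m0 N`
(injection `m ↦ (m:ℤ)`). By `F`, as `exp (-(..)) ≤ 1`, `S ≤ 2 * V P q * N`.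
Finally `V Set.univ q = V Set.univ z * V P q` (split `prs Set.univ q` at `z ≤ q`), and the fifth part of
`Mert` gives `V Set.univ q * log q ≤ c`, so `V P q ≤ c / (log q * V Set.univ z)
≤ 4 c u0 / (log h * V Set.univ z)`. (`V_pos` is in `Pool.Agent.H67.GT.MERT` and `...FLM`.) Take
`C = 8 c u0`.
-/

set_option autoImplicit false

namespace Pool.Agent.H7.LG

open Pool.Agent.H67.GT

/-- the elements of prs -/
theorem Siev_mem (P : Set ℕ) (z p : ℕ) : p ∈ prs P z ↔ (1 ≤ p ∧ p ≤ z) ∧ p.Prime ∧ p ∈ P := by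
  classical
  unfold prs
  rw [Finset.mem_filter, Finset.mem_Icc]

theorem Siev_pos (P : Set ℕ) (z : ℕ) : 0 < V P z := by
  unfold V
  apply Finset.prod_pos
  intro p hp
  rw [Siev_mem] at hp
  have h1 : (1 : ℝ) < p := by exact_mod_cast hp.2.1.one_lt
  have : 1 / (p : ℝ) < 1 := by rw [div_lt_one (by linarith)]; exact h1
  linarith

theorem Siev_split {z q : ℕ} (hzq : z ≤ q) :
    V Set.univ q = V Set.univ z * V {p | z < p} q := by
  classical
  unfold V
  rw [← Finset.prod_union]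
  · apply Finset.prod_congr _ (fun _ _ => rfl)
    ext p
    rw [Finset.mem_union, Siev_mem, Siev_mem, Siev_mem]
    simp only [Set.mem_univ, and_true, Set.mem_ofPred_eq]
    constructor
    · rintro ⟨⟨h1, h2⟩, h3⟩
      by_cases h : z < p
      · exact Or.inr ⟨⟨h1, h2⟩, h3, h⟩
      · exact Or.inl ⟨⟨h1, by omega⟩, h3⟩
    · rintro (⟨⟨h1, h2⟩, h3⟩ | ⟨⟨h1, h2⟩, h3, h4⟩)
      · exact ⟨⟨h1, by omega⟩, h3⟩
      · exact ⟨⟨h1, h2⟩, h3⟩
  · rw [Finset.disjoint_left]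
    intro p h1 h2
    rw [Siev_mem] at h1 h2
    have h3 : z < p := h2.2.2
    omega

/-- the residue classes -/
theorem Siev_r (z b : ℕ) : ∃ r : ℕ → ℤ, ∀ p : ℕ, p.Prime → z < p →
    (p : ℤ) ∣ b + r p * (primorial z : ℤ) := by
  have h : ∀ p : ℕ, ∃ r : ℤ, p.Prime → z < p → (p : ℤ) ∣ b + r * (primorial z : ℤ) := by
    intro p
    by_cases hp : p.Prime ∧ z < p
    · obtain ⟨hp, hz⟩ := hp
      have h1 : ¬ p ∣ primorial z := by
        rw [hp.dvd_primorial_iff]; omega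
      have h2 : IsCoprime ((primorial z : ℕ) : ℤ) (p : ℤ) :=
        Nat.isCoprime_iff_coprime.2 ((Nat.Prime.coprime_iff_not_dvd hp).2 h1).symm
      obtain ⟨u, v, huv⟩ := h2
      refine ⟨-(b * u), fun _ _ => ⟨b * v, ?_⟩⟩
      linear_combination (-(b : ℤ)) * huv
    · exact ⟨0, fun h1 h2 => absurd ⟨h1, h2⟩ hp⟩
  choose r hr using h
  exact ⟨r, hr⟩

open scoped Classical in
theorem Siev_card (z b m0 N q h : ℕ) (r : ℕ → ℤ) (hq : q ≤ Nat.sqrt h)
    (hr : ∀ p : ℕ, p.Prime → z < p → (p : ℤ) ∣ b + r p * (primorial z : ℤ)) :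
    ((Finset.Ioc m0 (m0 + N)).filter (fun m : ℕ =>
        (b + m * primorial z).Prime ∧ Nat.sqrt h < b + m * primorial z)).card ≤
      S {p | z < p} r q m0 N := by
  unfold S
  apply Finset.card_le_card_of_injOn (fun m : ℕ => (m : ℤ))
  · intro m hm
    rw [Finset.mem_coe, Finset.mem_filter, Finset.mem_Ioc] at hm
    rw [Finset.mem_coe, Finset.mem_filter, Finset.mem_Ioc]
    obtain ⟨⟨h1, h2⟩, h3, h4⟩ := hm
    have g1 : (m0 : ℤ) < (m : ℤ) := by exact_mod_cast h1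
    have g2 : (m : ℤ) ≤ (m0 : ℤ) + (N : ℤ) := by exact_mod_cast h2
    refine ⟨⟨g1, by push_cast; exact g2⟩, ?_⟩
    intro p hp hmod
    rw [Siev_mem] at hp
    obtain ⟨⟨_, hpq⟩, hpp, hpz⟩ := hp
    have hd := hr p hpp hpz
    have h5 : (p : ℤ) ∣ (b + m * primorial z : ℕ) := by
      have h6 : (p : ℤ) ∣ r p - m := hmod.dvd
      have h7 : ((b + m * primorial z : ℕ) : ℤ) =
          (b + r p * (primorial z : ℤ)) - (r p - m) * (primorial z : ℤ) := by
        push_cast; ring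
      rw [h7]
      exact dvd_sub hd (Dvd.dvd.mul_right h6 _)
    have h6 : p ∣ b + m * primorial z := by exact_mod_cast h5
    have h7 := (Nat.prime_dvd_prime_iff_eq hpp h3).1 h6
    omega
  · intro a _ a' _ haa
    have g : (a : ℤ) = (a' : ℤ) := haa
    exact_mod_cast g

/-- the size of the sieving level -/
theorem Siev_level (u0 : ℝ) (z0 : ℕ) (hu0 : 1 ≤ u0) : ∃ h1 : ℕ, ∀ h : ℕ, h1 ≤ h →
    ∃ q : ℕ, z0 ≤ q ∧ 3 ≤ q ∧ Real.log h < q ∧ Real.log h / (4 * u0) ≤ Real.log q ∧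
      u0 * Real.log q ≤ Real.log h / 2 ∧ q ≤ Nat.sqrt h ∧ 0 < Real.log h := by
  have hs : 0 < 1 / (4 * u0) := by positivity
  have e1 : ∀ᶠ x : ℝ in Filter.atTop, ‖Real.log x‖ ≤ 1 / 2 * ‖x ^ (1 / (4 * u0))‖ :=
    (isLittleO_log_rpow_atTop hs).bound (by norm_num)
  have e2 : ∀ᶠ x : ℝ in Filter.atTop, (z0 : ℝ) + 3 ≤ x ^ (1 / (4 * u0)) :=
    (tendsto_rpow_atTop hs).eventually_ge_atTop _
  have e3 : ∀ᶠ h : ℕ in Filter.atTop, ‖Real.log (h : ℝ)‖ ≤ 1 / 2 * ‖(h : ℝ) ^ (1 / (4 * u0))‖ ∧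
      (z0 : ℝ) + 3 ≤ (h : ℝ) ^ (1 / (4 * u0)) ∧ 2 ≤ h := by
    have := tendsto_natCast_atTop_atTop.eventually (e1.and e2)
    filter_upwards [this, Filter.eventually_ge_atTop 2] with h hh hh2
    exact ⟨hh.1, hh.2, hh2⟩
  obtain ⟨h1, hh1⟩ := Filter.eventually_atTop.1 e3
  refine ⟨h1, fun h hh => ?_⟩
  obtain ⟨a1, a2, a3⟩ := hh1 h hh
  obtain ⟨y, hy⟩ : ∃ y : ℝ, y = (h : ℝ) ^ (1 / (4 * u0)) := ⟨_, rfl⟩
  rw [← hy] at a1 a2
  have hz0 : (0 : ℝ) ≤ z0 := Nat.cast_nonneg z0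
  have hy3 : 3 ≤ y := by linarith
  have hhR : (2 : ℝ) ≤ h := by exact_mod_cast a3
  have hlogpos : 0 < Real.log h := Real.log_pos (by linarith)
  rw [Real.norm_of_nonneg hlogpos.le, Real.norm_of_nonneg (by linarith : 0 ≤ y)] at a1
  have hlogy : Real.log y = Real.log h / (4 * u0) := by
    rw [hy, Real.log_rpow (by linarith)]
    ring
  have hq1 : y ≤ (⌊y ^ 2⌋₊ : ℝ) := by
    have := Nat.lt_floor_add_one (y ^ 2)
    nlinarith
  have hq2 : (⌊y ^ 2⌋₊ : ℝ) ≤ y ^ 2 := Nat.floor_le (by positivity)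
  have hq0 : (0 : ℝ) < (⌊y ^ 2⌋₊ : ℝ) := by linarith
  refine ⟨⌊y ^ 2⌋₊, ?_, ?_, ?_, ?_, ?_, ?_, hlogpos⟩
  · have : (z0 : ℝ) ≤ (⌊y ^ 2⌋₊ : ℝ) := by linarith
    exact_mod_cast this
  · have : (3 : ℝ) ≤ (⌊y ^ 2⌋₊ : ℝ) := by linarith
    exact_mod_cast this
  · linarith
  · rw [← hlogy]
    exact Real.log_le_log (by linarith) hq1
  · have h3 : Real.log (⌊y ^ 2⌋₊ : ℝ) ≤ 2 * Real.log y := by
      have := Real.log_le_log hq0 hq2
      rw [Real.log_pow] at this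
      exact_mod_cast this
    rw [hlogy] at h3
    have hu : 0 < u0 := by linarith
    calc u0 * Real.log (⌊y ^ 2⌋₊ : ℝ) ≤ u0 * (2 * (Real.log h / (4 * u0))) :=
          mul_le_mul_of_nonneg_left h3 hu.le
      _ = Real.log h / 2 := by field_simp; ring
  · rw [Nat.le_sqrt']
    have h4 : y ^ 4 ≤ h := by
      have h5 : y ^ 4 = (h : ℝ) ^ (1 / u0) := by
        rw [hy, ← Real.rpow_natCast, ← Real.rpow_mul (by linarith)]
        congr 1
        have hu : u0 ≠ 0 := by linarith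
        field_simp
        norm_num
      rw [h5]
      calc (h : ℝ) ^ (1 / u0) ≤ (h : ℝ) ^ (1 : ℝ) := by
            apply Real.rpow_le_rpow_of_exponent_le (by linarith)
            rw [div_le_one (by linarith)]
            exact hu0
        _ = h := Real.rpow_one _
    have h6 : (⌊y ^ 2⌋₊ : ℝ) ^ 2 ≤ h := by
      calc (⌊y ^ 2⌋₊ : ℝ) ^ 2 ≤ (y ^ 2) ^ 2 := pow_le_pow_left₀ hq0.le hq2 2
        _ = y ^ 4 := by ring
        _ ≤ h := h4
    exact_mod_cast h6

open scoped Classical in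
theorem siev (M : Mert) (F : FL) : ∃ C : ℝ, 0 < C ∧ ∃ h1 : ℕ, ∀ h : ℕ, h1 ≤ h →
    ∀ (z b m0 N : ℕ), 2 ≤ z → (z : ℝ) ≤ Real.log h → Real.sqrt h ≤ N →
    (((Finset.Ioc m0 (m0 + N)).filter (fun m : ℕ =>
        (b + m * primorial z).Prime ∧ Nat.sqrt h < b + m * primorial z)).card : ℝ) ≤
      C * N / (Real.log h * V Set.univ z) := by
  obtain ⟨c, hc1, -, -, -, -, hM5⟩ := M
  obtain ⟨u0, z0, hu0, hz0, hF⟩ := F 1 le_rfl
  obtain ⟨h1, hh1⟩ := Siev_level u0 z0 hu0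
  have hu : 0 < u0 := by linarith
  refine ⟨8 * c * u0, by positivity, h1, fun h hh z b m0 N hz2 hzh hN => ?_⟩
  obtain ⟨q, hq0, hq3, hq1, hq2, hq4, hq5, hlog⟩ := hh1 h hh
  obtain ⟨r, hr⟩ := Siev_r z b
  have hzq : z < q := by
    have : (z : ℝ) < q := lt_of_le_of_lt hzh hq1
    exact_mod_cast this
  have hqR : (3 : ℝ) ≤ q := by exact_mod_cast hq3
  have hlq : 0 < Real.log q := Real.log_pos (by linarith)
  have hhpos : 0 < (h : ℝ) := by
    rcases Nat.eq_zero_or_pos h with h0 | h0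
    · rw [h0] at hlog; simp at hlog
    · exact_mod_cast h0
  have hsq : 0 < Real.sqrt h := Real.sqrt_pos.2 hhpos
  have hNpos : (0 : ℝ) < N := lt_of_lt_of_le hsq hN
  have hlN : Real.log h / 2 ≤ Real.log N := by
    have := Real.log_le_log hsq hN
    rwa [Real.log_sqrt hhpos.le] at this
  have hlev : u0 * Real.log q ≤ Real.log N := hq4.trans hlN
  have hS := hF {p | z < p} r q m0 N hq0 hlev
  have hV := Siev_pos {p | z < p} q
  have hVz := Siev_pos Set.univ z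
  have hexp : Real.exp (-1 * (Real.log N / Real.log q - u0)) ≤ 1 := by
    rw [Real.exp_le_one_iff]
    have : u0 ≤ Real.log N / Real.log q := by rw [le_div_iff₀ hlq]; exact hlev
    linarith
  have hS2 : (S {p | z < p} r q m0 N : ℝ) ≤ 2 * (V {p | z < p} q * N) := by
    have h2 := (abs_le.1 hS).2
    have h3 : Real.exp (-1 * (Real.log N / Real.log q - u0)) * (V {p | z < p} q * N) ≤
        1 * (V {p | z < p} q * N) := mul_le_mul_of_nonneg_right hexp (by positivity)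
    linarith
  have hcard : (((Finset.Ioc m0 (m0 + N)).filter (fun m : ℕ =>
        (b + m * primorial z).Prime ∧ Nat.sqrt h < b + m * primorial z)).card : ℝ) ≤
      S {p | z < p} r q m0 N := by
    exact_mod_cast Siev_card z b m0 N q h r hq5 hr
  have h5 := hM5 q (by omega)
  rw [Siev_split hzq.le] at h5
  refine (hcard.trans hS2).trans ?_
  rw [le_div_iff₀ (by positivity)]
  have h6 : Real.log h ≤ 4 * u0 * Real.log q := by
    rw [div_le_iff₀ (by positivity)] at hq2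
    linarith
  have h7 : V {p | z < p} q * V Set.univ z * Real.log h ≤ 4 * u0 * c := by
    calc V {p | z < p} q * V Set.univ z * Real.log h
        ≤ V {p | z < p} q * V Set.univ z * (4 * u0 * Real.log q) :=
          mul_le_mul_of_nonneg_left h6 (by positivity)
      _ = 4 * u0 * (V Set.univ z * V {p | z < p} q * Real.log q) := by ring
      _ ≤ 4 * u0 * c := mul_le_mul_of_nonneg_left h5 (by positivity)
  calc 2 * (V {p | z < p} q * N) * (Real.log h * V Set.univ z)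
      = 2 * N * (V {p | z < p} q * V Set.univ z * Real.log h) := by ring
    _ ≤ 2 * N * (4 * u0 * c) := mul_le_mul_of_nonneg_left h7 (by positivity)
    _ = 8 * c * u0 * N := by ring

end Pool.Agent.H7.LG
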