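import Pool.Agent.H7.LG.Avg
import Pool.Agent.H7.LG.Crt
import Pool.Agent.H7.LG.Siev
import Pool.Agent.H67.GT.MERT

/-!
Module ROWS. Counting prime-free intervals by rows of a Maier matrix.
-/

set_option autoImplicit false

namespace Pool.Agent.H7.LG

open Pool.Agent.H67.GT

lemma Rows_R (y w z : ℕ) (hwz : w ≤ z) : ∃ r : ℕ → ℕ,
    ((rem (Finset.Icc 1 y) r z).card : ℝ) ≤ (sv y w z).card * V Set.univ w := by
  obtain ⟨r0, hr0⟩ := avg (sv y w z) w
  refine ⟨fun p => if p ≤ w then r0 p else 0, le_trans ?_ hr0⟩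
  norm_cast
  apply Finset.card_le_card
  intro j hj
  rw [mem_rem] at hj ⊢
  obtain ⟨hj1, hj2⟩ := hj
  refine ⟨mem_sv.2 ⟨Finset.mem_Icc.1 hj1, fun p hp hpj => ?_⟩, fun p hp hpw => ?_⟩
  · by_contra hcon
    push Not at hcon
    have h1 := hj2 p hp hcon.2
    simp only [if_neg (not_le.2 hcon.1)] at h1
    exact h1 ((Nat.modEq_zero_iff_dvd).2 hpj)
  · have h1 := hj2 p hp (hpw.trans hwz)
    simp only [if_pos hpw] at h1
    exact h1

/-- The rows `m` for which `(a + m Q, a + m Q + y]` contains a prime. -/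
noncomputable def Rows_bad (a Q m0 N y : ℕ) : Finset ℕ := by
  classical exact (Finset.Ioc m0 (m0 + N)).filter (fun m : ℕ => ∃ p : ℕ, p.Prime ∧ a + m * Q < p ∧ p ≤ a + m * Q + y)

lemma Rows_mem_bad {a Q m0 N y m : ℕ} : m ∈ Rows_bad a Q m0 N y ↔
    m ∈ Finset.Ioc m0 (m0 + N) ∧ ∃ p : ℕ, p.Prime ∧ a + m * Q < p ∧ p ≤ a + m * Q + y := by
  classical
  unfold Rows_bad
  rw [Finset.mem_filter]

open scoped Classical in
lemma Rows_bad_card {B : ℝ} (h z y m0 N a : ℕ) (r : ℕ → ℕ)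
    (ha : ∀ p : ℕ, p.Prime → p ≤ z → ∀ m j : ℕ, (p ∣ a + m * primorial z + j ↔ j ≡ r p [MOD p]))
    (hbig : ∀ m ∈ Finset.Ioc m0 (m0 + N), Nat.sqrt h < a + m * primorial z) (hz : z ≤ Nat.sqrt h)
    (hB : ∀ b : ℕ, (((Finset.Ioc m0 (m0 + N)).filter (fun m : ℕ =>
        (b + m * primorial z).Prime ∧ Nat.sqrt h < b + m * primorial z)).card : ℝ) ≤ B) :
    ((Rows_bad a (primorial z) m0 N y).card : ℝ) ≤ (rem (Finset.Icc 1 y) r z).card * B := by
  have hsub : Rows_bad a (primorial z) m0 N y ⊆ (rem (Finset.Icc 1 y) r z).biUnion (fun j : ℕ =>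
      (Finset.Ioc m0 (m0 + N)).filter (fun m : ℕ =>
        ((a + j) + m * primorial z).Prime ∧ Nat.sqrt h < (a + j) + m * primorial z)) := by
    intro m hm
    rw [Rows_mem_bad] at hm
    obtain ⟨hm1, p, hp, hp1, hp2⟩ := hm
    have hg := hbig m hm1
    rw [Finset.mem_biUnion]
    obtain ⟨j, rfl⟩ : ∃ j : ℕ, p = a + m * primorial z + j := ⟨p - (a + m * primorial z), by omega⟩
    refine ⟨j, ?_, ?_⟩
    · rw [mem_rem, Finset.mem_Icc]
      refine ⟨⟨by omega, by omega⟩, fun q hq hqz hj => ?_⟩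
      have h1 := (ha q hq hqz m j).2 hj
      have h2 := (Nat.prime_dvd_prime_iff_eq hq hp).1 h1
      omega
    · rw [Finset.mem_filter]
      have e : (a + j) + m * primorial z = a + m * primorial z + j := by ring
      rw [e]
      exact ⟨hm1, hp, by omega⟩
  calc ((Rows_bad a (primorial z) m0 N y).card : ℝ)
      ≤ (((rem (Finset.Icc 1 y) r z).biUnion (fun j : ℕ =>
      (Finset.Ioc m0 (m0 + N)).filter (fun m : ℕ =>
        ((a + j) + m * primorial z).Prime ∧ Nat.sqrt h < (a + j) + m * primorial z))).card : ℝ) := by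
        exact_mod_cast Finset.card_le_card hsub
    _ ≤ ∑ j ∈ rem (Finset.Icc 1 y) r z, (((Finset.Ioc m0 (m0 + N)).filter (fun m : ℕ =>
        ((a + j) + m * primorial z).Prime ∧ Nat.sqrt h < (a + j) + m * primorial z)).card : ℝ) := by
        exact_mod_cast Finset.card_biUnion_le
    _ ≤ ∑ j ∈ rem (Finset.Icc 1 y) r z, B := Finset.sum_le_sum (fun j _ => hB (a + j))
    _ = _ := by rw [Finset.sum_const, nsmul_eq_mul]

lemma Rows_good {x h y a Q m0 N : ℕ} (hQ : 0 < Q)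
    (hlo : ∀ m ∈ Finset.Ioc m0 (m0 + N), x < a + m * Q)
    (hhi : ∀ m ∈ Finset.Ioc m0 (m0 + N), a + m * Q ≤ x + h) :
    (N : ℝ) - (Rows_bad a Q m0 N y).card ≤ (cnt x h y : ℝ) := by
  classical
  have hT := card_le_cnt (x := x) (h := h) (y := y)
    ((Finset.Ioc m0 (m0 + N) \ Rows_bad a Q m0 N y).image (fun m => a + m * Q)) (by
      intro n hn
      rw [Finset.mem_image] at hn
      obtain ⟨m, hm, rfl⟩ := hn
      rw [Finset.mem_sdiff] at hm
      refine ⟨hlo m hm.1, hhi m hm.1, fun p hp hnp => ?_⟩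
      by_contra hcon
      push Not at hcon
      exact hm.2 (Rows_mem_bad.2 ⟨hm.1, p, hp, hnp, hcon⟩))
  rw [Finset.card_image_of_injective _ (by
    intro m m' hmm
    have h1 : a + m * Q = a + m' * Q := hmm
    exact Nat.eq_of_mul_eq_mul_right hQ (by omega))] at hT
  have h2 := Finset.le_card_sdiff (Rows_bad a Q m0 N y) (Finset.Ioc m0 (m0 + N))
  rw [Nat.card_Ioc] at h2
  have h3 : N ≤ cnt x h y + (Rows_bad a Q m0 N y).card := by omega
  have h4 : (N : ℝ) ≤ (cnt x h y : ℝ) + (Rows_bad a Q m0 N y).card := by exact_mod_cast h3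
  linarith

lemma Rows_size {h z : ℕ} (hh : 2 ^ 12 ≤ h) (hz : 8 * (z : ℝ) ≤ Real.log h) :
    (primorial z : ℝ) ^ 4 ≤ h ∧ z ≤ Nat.sqrt h := by
  have hh0 : (0 : ℝ) < h := by
    have : 0 < h := lt_of_lt_of_le (by norm_num) hh
    exact_mod_cast this
  have h1 : (primorial z : ℝ) ≤ 4 ^ z := by exact_mod_cast primorial_le_four_pow z
  have h2 : (4 ^ z : ℝ) ^ 4 ≤ h := by
    rw [← Real.log_le_log_iff (by positivity) hh0, Real.log_pow, Real.log_pow]
    have h3 : Real.log 4 = 2 * Real.log 2 := by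
      rw [show (4 : ℝ) = 2 ^ 2 by norm_num, Real.log_pow]; push_cast; ring
    have h4 := Real.log_two_lt_d9
    rw [h3]
    push_cast
    have : (z : ℝ) * Real.log 2 ≤ z * 1 := by
      apply mul_le_mul_of_nonneg_left (by linarith) (Nat.cast_nonneg _)
    nlinarith
  refine ⟨(pow_le_pow_left₀ (Nat.cast_nonneg _) h1 4).trans h2, ?_⟩
  rw [Nat.le_sqrt]
  have h5 : (z : ℕ) ≤ 4 ^ z := (Nat.lt_pow_self (by norm_num)).le
  have h6 : (z : ℝ) ≤ 4 ^ z := by exact_mod_cast h5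
  have h7 : (1 : ℝ) ≤ 4 ^ z := one_le_pow₀ (by norm_num)
  have h8 : (z : ℝ) * z ≤ h := by
    calc (z : ℝ) * z ≤ 4 ^ z * 4 ^ z := by gcongr
      _ ≤ (4 ^ z * 4 ^ z) * ((4 ^ z) * (4 ^ z)) := by
          apply le_mul_of_one_le_right (by positivity)
          nlinarith
      _ = (4 ^ z : ℝ) ^ 4 := by ring
      _ ≤ h := h2
  exact_mod_cast h8

theorem rows (M : Mert) (F : FL) : ∃ ε : ℝ, 0 < ε ∧ ∃ h1 : ℕ, ∀ h : ℕ, h1 ≤ h →
    ∀ (x y w z : ℕ), 2 ≤ w → w ≤ z → 8 * (z : ℝ) ≤ Real.log h →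
    ((sv y w z).card : ℝ) * Real.log z ≤ ε * Real.log h * Real.log w →
    (h : ℝ) / (16 * 4 ^ z) ≤ (cnt x h y : ℝ) := by
  obtain ⟨C, hC, h1, hs⟩ := siev M F
  obtain ⟨c, hc, -, -, hM3, -, -⟩ := M
  refine ⟨1 / (4 * C * c), by positivity, max h1 (2 ^ 12), fun h hh x y w z hw hwz hz8 hsv => ?_⟩
  have hh1 : h1 ≤ h := le_trans (le_max_left _ _) hh
  have hh2 : 2 ^ 12 ≤ h := le_trans (le_max_right _ _) hh
  obtain ⟨hQ4, hzg⟩ := Rows_size hh2 hz8
  set Q := primorial z with hQdef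
  have hQ0 : 0 < Q := primorial_pos z
  have hQ0' : (1 : ℝ) ≤ Q := by exact_mod_cast hQ0
  obtain ⟨r, hr⟩ := Rows_R y w z hwz
  obtain ⟨a, haQ, ha⟩ := crt r z
  set g := Nat.sqrt h with hg
  set m0 := (x + g) / Q + 1 with hm0
  set N := h / (4 * Q) with hN
  have hhR : (2 ^ 12 : ℝ) ≤ h := by exact_mod_cast hh2
  have hlogh : 0 < Real.log h := Real.log_pos (by linarith)
  have hz2 : 2 ≤ z := hw.trans hwz
  have hlogz : 0 < Real.log z := Real.log_pos (by exact_mod_cast (show 1 < z by omega))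
  have hlogw : 0 < Real.log w := Real.log_pos (by exact_mod_cast (show 1 < w by omega))
  -- sizes
  obtain ⟨s, hs8, hs4⟩ : ∃ s : ℝ, 8 ≤ s ∧ s ^ 4 = h := by
    refine ⟨(h : ℝ) ^ (1 / 4 : ℝ), ?_, ?_⟩
    · have : (8 : ℝ) = ((2 ^ 12 : ℝ)) ^ (1 / 4 : ℝ) := by
        rw [← Real.rpow_natCast 2 12, ← Real.rpow_mul (by norm_num)]
        norm_num
      rw [this]
      exact Real.rpow_le_rpow (by norm_num) hhR (by norm_num)
    · rw [← Real.rpow_natCast, ← Real.rpow_mul (by linarith)]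
      norm_num
  have hQs : (Q : ℝ) ≤ s := by
    apply le_of_pow_le_pow_left₀ (n := 4) (by norm_num) (by linarith)
    rw [hs4]; exact hQ4
  have hsqrt : Real.sqrt h = s ^ 2 := by
    rw [← hs4, show s ^ 4 = (s ^ 2) ^ 2 by ring]
    exact Real.sqrt_sq (by positivity)
  have hNlow : (h : ℝ) / (4 * Q) - 1 ≤ N := by
    have h3 := Nat.lt_floor_add_one ((h : ℝ) / ((4 * Q : ℕ) : ℝ))
    rw [Nat.floor_div_eq_div] at h3
    push_cast at h3
    linarith
  have hQR : (0 : ℝ) < Q := by linarith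
  have hN1 : Real.sqrt h ≤ N := by
    rw [hsqrt]
    refine le_trans ?_ hNlow
    rw [le_sub_iff_add_le, le_div_iff₀ (by positivity), ← hs4]
    have h4 : (s ^ 2 + 1) * (4 * Q) ≤ (s ^ 2 + 1) * (4 * s) := by gcongr
    nlinarith [mul_pos (show (0:ℝ) < s by linarith) (show (0:ℝ) < s by linarith), sq_nonneg (s - 8), mul_nonneg (mul_nonneg (show (0:ℝ) ≤ s by linarith) (show (0:ℝ) ≤ s by linarith)) (mul_nonneg (show (0:ℝ) ≤ s by linarith) (show (0:ℝ) ≤ s - 8 by linarith))]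
  have hN2 : (h : ℝ) / (8 * Q) ≤ N := by
    refine le_trans ?_ hNlow
    have h4 : (h : ℝ) / (4 * Q) = 2 * (h / (8 * Q)) := by field_simp; ring
    rw [h4]
    have h5 : 1 ≤ (h : ℝ) / (8 * Q) := by
      rw [le_div_iff₀ (by positivity), ← hs4]
      nlinarith [mul_nonneg (mul_nonneg (show (0:ℝ) ≤ s by linarith) (show (0:ℝ) ≤ s by linarith)) (mul_nonneg (show (0:ℝ) ≤ s by linarith) (show (0:ℝ) ≤ s - 8 by linarith)), mul_nonneg (mul_nonneg (show (0:ℝ) ≤ s by linarith) (show (0:ℝ) ≤ s by linarith)) (show (0:ℝ) ≤ s - 8 by linarith), mul_nonneg (show (0:ℝ) ≤ s by linarith) (show (0:ℝ) ≤ s - 8 by linarith)]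
    linarith
  -- naturals
  have hNQ : N * (4 * Q) ≤ h := Nat.div_mul_le_self h (4 * Q)
  have hg4 : g * 4 ≤ h := by
    have h5 : g * g ≤ h := Nat.sqrt_le h
    have h6 : 4 ≤ g := by
      rw [hg, Nat.le_sqrt]; omega
    nlinarith
  have hQ8 : Q * 8 ≤ h := by
    have h5 : (Q : ℝ) * 8 ≤ h := by
      rw [← hs4]
      nlinarith [mul_nonneg (mul_nonneg (show (0:ℝ) ≤ s by linarith) (show (0:ℝ) ≤ s by linarith)) (mul_nonneg (show (0:ℝ) ≤ s by linarith) (show (0:ℝ) ≤ s - 8 by linarith)), mul_nonneg (mul_nonneg (show (0:ℝ) ≤ s by linarith) (show (0:ℝ) ≤ s by linarith)) (show (0:ℝ) ≤ s - 8 by linarith), mul_nonneg (show (0:ℝ) ≤ s by linarith) (show (0:ℝ) ≤ s - 8 by linarith)]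
    exact_mod_cast h5
  have hlow : ∀ m ∈ Finset.Ioc m0 (m0 + N), x + g < a + m * Q := by
    intro m hm
    rw [Finset.mem_Ioc] at hm
    have h5 : x + g < Q * ((x + g) / Q + 1) := Nat.lt_mul_div_succ (x + g) hQ0
    have h6 : Q * m0 ≤ m * Q := by rw [mul_comm]; exact Nat.mul_le_mul_right Q hm.1.le
    rw [← hm0] at h5
    omega
  have hhigh : ∀ m ∈ Finset.Ioc m0 (m0 + N), a + m * Q ≤ x + h := by
    intro m hm
    rw [Finset.mem_Ioc] at hm
    have h5 : (x + g) / Q * Q ≤ x + g := Nat.div_mul_le_self (x + g) Q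
    have h6 : m * Q ≤ ((x + g) / Q + 1 + N) * Q := Nat.mul_le_mul_right Q hm.2
    have h7 : ((x + g) / Q + 1 + N) * Q = (x + g) / Q * Q + Q + N * Q := by ring
    have h8 : N * (4 * Q) = 4 * (N * Q) := by ring
    omega
  -- the sieve
  have hB : ∀ b : ℕ, _ := fun b => hs h hh1 z b m0 N hz2 (by linarith [(Nat.cast_nonneg z : (0:ℝ) ≤ z)]) hN1
  have hbad := Rows_bad_card (B := C * N / (Real.log h * V Set.univ z)) h z y m0 N a r ha
    (fun m hm => lt_of_le_of_lt (Nat.le_add_left g x) (hlow m hm)) hzg hB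
  have hgood := Rows_good (x := x) (h := h) (y := y) (a := a) (Q := Q) (m0 := m0) (N := N) hQ0
    (fun m hm => lt_of_le_of_lt (Nat.le_add_right x g) (hlow m hm)) hhigh
  have hVz := MERT.V_pos Set.univ z
  have hVw := MERT.V_pos Set.univ w
  have hN0 : (0 : ℝ) ≤ N := Nat.cast_nonneg N
  have hbad2 : ((Rows_bad a Q m0 N y).card : ℝ) ≤ N / 4 := by
    refine hbad.trans ?_
    have h5 : ((rem (Finset.Icc 1 y) r z).card : ℝ) ≤
        (sv y w z).card * (c * (Real.log z / Real.log w) * V Set.univ z) :=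
      hr.trans (mul_le_mul_of_nonneg_left (hM3 Set.univ w z hw hwz) (Nat.cast_nonneg _))
    calc ((rem (Finset.Icc 1 y) r z).card : ℝ) * (C * N / (Real.log h * V Set.univ z))
        ≤ ((sv y w z).card * (c * (Real.log z / Real.log w) * V Set.univ z)) *
          (C * N / (Real.log h * V Set.univ z)) := by gcongr
      _ = ((sv y w z).card * Real.log z) * (c * C * N / (Real.log w * Real.log h)) := by
          field_simp
      _ ≤ (1 / (4 * C * c) * Real.log h * Real.log w) * (c * C * N / (Real.log w * Real.log h)) := by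
          gcongr
      _ = N / 4 := by field_simp
  have h4z : (Q : ℝ) ≤ 4 ^ z := by exact_mod_cast primorial_le_four_pow z
  calc (h : ℝ) / (16 * 4 ^ z) ≤ h / (16 * Q) := by gcongr
    _ = h / (8 * Q) / 2 := by field_simp; ring
    _ ≤ N / 2 := by gcongr
    _ ≤ N - (Rows_bad a Q m0 N y).card := by linarith
    _ ≤ _ := hgood

end Pool.Agent.H7.LG
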