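import Pool.Agent.H7.LG.ParB
import Pool.Agent.H7.LG.Rows

set_option autoImplicit false

namespace Pool.Agent.H7.LG

open Pool.Agent.H67.GT

theorem fin (M : Mert) (F : FL) : ∃ c : ℝ, 0 < c ∧ ∃ h0 : ℕ, ∀ (x h : ℕ) (L : ℝ), h0 ≤ h → 1 ≤ L →
      L * l1 L ^ 2 ≤ c * Real.log (Real.log h) * l2 L →
      (h : ℝ) * Real.exp (-(Real.log h) ^ (1 - c * l2 L / (L * l1 L))) ≤
        (cnt x h ⌊L * Real.log h⌋₊ : ℝ) := by
  obtain ⟨ε, hε, h1, hrows⟩ := rows M F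
  obtain ⟨c, hc, h2, hpar⟩ := parb ε hε
  refine ⟨c, hc, max h1 h2, fun x h L hh hL hyp => ?_⟩
  obtain ⟨w, z, hw, hwz, hz8, hsv, hz⟩ := hpar h L (le_trans (le_max_right _ _) hh) hL hyp
  have h3 := hrows h (le_trans (le_max_left _ _) hh) x ⌊L * Real.log h⌋₊ w z hw hwz hz8 hsv
  refine le_trans ?_ h3
  have h4 : (16 * 4 ^ z : ℝ) ≤ Real.exp (3 + 2 * z) := by
    have e1 : Real.exp (2 * z) = (Real.exp 2) ^ z := by
      rw [← Real.exp_nat_mul]; congr 1; ring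
    have e2 : (16 : ℝ) ≤ Real.exp 3 := by
      have : Real.exp 3 = (Real.exp 1) ^ 3 := by
        rw [← Real.exp_nat_mul]; norm_num
      rw [this]
      have := Real.exp_one_gt_d9
      calc (16 : ℝ) ≤ 2.7 ^ 3 := by norm_num
        _ ≤ (Real.exp 1) ^ 3 := by gcongr; linarith
    have e3 : (4 : ℝ) ≤ Real.exp 2 := by
      have : Real.exp 2 = (Real.exp 1) ^ 2 := by
        rw [← Real.exp_nat_mul]; norm_num
      rw [this]
      have := Real.exp_one_gt_d9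
      calc (4 : ℝ) ≤ 2.7 ^ 2 := by norm_num
        _ ≤ (Real.exp 1) ^ 2 := by gcongr; linarith
    rw [Real.exp_add, e1]
    gcongr
  have h5 : Real.exp (-(Real.log h) ^ (1 - c * l2 L / (L * l1 L))) ≤ (16 * 4 ^ z : ℝ)⁻¹ := by
    rw [Real.exp_neg]
    apply inv_anti₀ (by positivity)
    exact h4.trans (Real.exp_le_exp.mpr hz)
  rw [div_eq_mul_inv]
  exact mul_le_mul_of_nonneg_left h5 (Nat.cast_nonneg _)

end Pool.Agent.H7.LG
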