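import Pool.Agent.H7.LG.Defs

/-!
Module PARA. Choice of the parameters `w`, `z` (real analysis only).

Proof. Write `H = log h`, `Λ = log H`, `ℓ = l1 L ≥ 2.75`, `lam = l2 L`, `1 ≤ lam ≤ ℓ`, `y = ⌊L H⌋₊`, `Y = log y`.
Take `c = min (1/2) (min (1/(4 B K)) (min (1/(16 B)) (c3/8)))` and `h0` such that `h ≥ h0` gives `H ≥ 36`.
(*) is the hypothesis `L ℓ ^ 2 ≤ c Λ lam`. It gives `L ℓ ≤ c Λ`, `ℓ ≤ Λ`, and `lam Λ ≥ L ℓ ^ 2 / c`.
`L H - 1 < y ≤ L H`, `y ≥ H - 1 ≥ √H`, so `Λ / 2 ≤ Y`, `y ≥ 35`.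
`t = lam Y / (B ℓ) ≥ lam Λ / (2 B ℓ) ≥ L ℓ / (2 B c) ≥ 2`, `w = ⌊exp t⌋₊`, so `w ≥ exp t - 1 ≥ exp (t/2)`,
`t/2 ≤ log w ≤ t`: the two inequalities with `B`. `t/2 ≥ L ℓ / (4 B c)` is `≥ K L` and `≥ 4 ℓ ≥ 4 lam`.
`D = c3 lam Y / (L ℓ) ≤ c3 Y ≤ Y / 2`, `z = ⌊y * exp (-D)⌋₊`, `y exp (-D) ≥ exp (Y/2) ≥ 2`, so
`y exp (-D) / 2 ≤ z ≤ y exp (-D) ≤ y` and `log (y / z) ≤ D + log 2 ≤ 1 + D`.
`w ≤ z` since `exp t ≤ exp (Y / 4) ≤ y exp (-D)` (`t ≤ Y / B ≤ Y / 4`), `Nat.floor_mono`.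
`D ≥ c3 lam Λ / (2 L ℓ)`. Put `δ = c lam / (L ℓ) ≤ 1/2`; `δ Λ ≤ (2 c / c3) D ≤ D / 4` and, by (*),
`ℓ ≤ δ Λ`. So `16 + L = exp ℓ ≤ exp (D/4)`. `z ≤ L H exp (-D) ≤ H exp (-3D/4)`, so `8 z ≤ H`, and
`2 z ≤ 2 exp (-D/2) * (H exp (-D/4)) ≤ (1/2) H exp (-D/4) ≤ (1/2) H exp (-(δ Λ)) = (1/2) H ^ (1 - δ)`,
`3 ≤ (1/2) H ^ (1/2) ≤ (1/2) H ^ (1 - δ)`.
-/

set_option autoImplicit false

namespace Pool.Agent.H7.LG

theorem para_core (B c3 K c H L ell lam : ℝ) (hB : 4 ≤ B) (hc3 : 0 < c3) (hc3' : c3 ≤ 1 / 2)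
    (hK : 1 ≤ K) (hc0 : 0 < c) (hc1 : c ≤ 1 / 2) (hc2 : 4 * B * K * c ≤ 1) (hc4 : 16 * B * c ≤ 1)
    (hc5 : 8 * c ≤ c3) (hH : 36 ≤ H) (hL : 1 ≤ L) (hl1 : 2.75 ≤ ell) (hl2 : 1 ≤ lam)
    (hl21 : lam ≤ ell) (hexp : Real.exp ell = 16 + L)
    (hstar : L * ell ^ 2 ≤ c * Real.log H * lam) :
    ∃ w z : ℕ, 2 ≤ w ∧ w ≤ z ∧ z ≤ ⌊L * H⌋₊ ∧ 8 * (z : ℝ) ≤ H ∧
        B * ell * Real.log w ≤ lam * Real.log (⌊L * H⌋₊ : ℝ) ∧
        lam * Real.log (⌊L * H⌋₊ : ℝ) ≤ 2 * B * ell * Real.log w ∧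
        K * L ≤ Real.log w ∧ 4 * lam ≤ Real.log w ∧
        Real.log ((⌊L * H⌋₊ : ℝ) / z) ≤
          1 + c3 * lam * Real.log (⌊L * H⌋₊ : ℝ) / (L * ell) ∧
        3 + 2 * (z : ℝ) ≤ H ^ (1 - c * lam / (L * ell)) := by
  have hB0 : 0 < B := by linarith
  have hK0 : 0 < K := by linarith
  have hH0 : 0 < H := by linarith
  have hL0 : 0 < L := by linarith
  have he0 : 0 < ell := by linarith
  have hlam0 : 0 < lam := by linarith
  have hLe : 0 < L * ell := by positivity
  set Lam := Real.log H with hLam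
  -- consequences of the hypothesis
  have hs1 : L * ell ≤ c * Lam := by
    have h1 : c * Lam * lam ≤ c * Lam * ell ∨ Lam < 0 := by
      by_cases hn : Lam < 0
      · right; exact hn
      · left
        exact mul_le_mul_of_nonneg_left hl21 (by
          have : 0 ≤ Lam := by linarith
          positivity)
    rcases h1 with h1 | h1
    · have h2 : (L * ell) * ell ≤ (c * Lam) * ell := by nlinarith
      exact le_of_mul_le_mul_right h2 he0
    · exfalso
      have h3 : 0 < L * ell ^ 2 := by positivity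
      have h4 : c * Lam * lam < 0 := by
        have := mul_pos hc0 hlam0
        nlinarith
      linarith
  have hLam0 : 0 < Lam := by
    have : 0 < c * Lam := lt_of_lt_of_le hLe hs1
    by_contra hn
    have hn' : Lam ≤ 0 := by linarith
    nlinarith
  have hellLe : ell ≤ L * ell := by nlinarith
  have hLam176 : 176 ≤ Lam := by
    have h1 : 16 * B * (L * ell) ≤ 16 * B * (c * Lam) := by
      apply mul_le_mul_of_nonneg_left hs1; positivity
    have h2 : 16 * B * (c * Lam) ≤ Lam := by nlinarith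
    have h3 : 64 * (2.75 : ℝ) ≤ 16 * B * (L * ell) := by
      have h4 : (2.75 : ℝ) ≤ L * ell := by linarith
      have h5 : (64 : ℝ) ≤ 16 * B := by linarith
      exact mul_le_mul h5 h4 (by norm_num) (by positivity)
    norm_num at h3
    linarith
  -- the integer y
  set y := ⌊L * H⌋₊ with hy
  have hLH : H ≤ L * H := by nlinarith
  have hy1 : (y : ℝ) ≤ L * H := Nat.floor_le (by positivity)
  have hy2 : L * H < (y : ℝ) + 1 := Nat.lt_floor_add_one _
  have hy3 : H - 1 ≤ (y : ℝ) := by linarith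
  have hy0 : (0 : ℝ) < y := by linarith
  set Y := Real.log (y : ℝ) with hY
  have hYL : Lam / 2 ≤ Y := by
    have h1 : Real.sqrt H ≤ (y : ℝ) := by
      rw [Real.sqrt_le_left (by linarith)]
      nlinarith
    have h2 : Real.log (Real.sqrt H) ≤ Real.log (y : ℝ) :=
      Real.log_le_log (Real.sqrt_pos.mpr hH0) h1
    rw [Real.log_sqrt hH0.le] at h2
    exact h2
  have hY88 : 88 ≤ Y := by linarith
  have hexpY : Real.exp Y = y := Real.exp_log hy0
  -- the integer w
  set t := lam * Y / (B * ell) with ht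
  have hBe : 0 < B * ell := by positivity
  have ht1 : B * ell * t = lam * Y := by rw [ht]; field_simp
  have htlow : L * ell ≤ 2 * B * c * t := by
    -- lam * Lam ≥ L * ell^2 / c
    have h1 : L * ell ^ 2 ≤ c * (2 * Y) * lam := by
      refine hstar.trans ?_
      have : c * Lam ≤ c * (2 * Y) := mul_le_mul_of_nonneg_left (by linarith) hc0.le
      exact mul_le_mul_of_nonneg_right this hlam0.le
    have h2 : (L * ell) * ell ≤ (2 * B * c * t) * ell := by
      have : (2 * B * c * t) * ell = 2 * c * (B * ell * t) := by ring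
      rw [this, ht1]
      nlinarith
    exact le_of_mul_le_mul_right h2 he0
  have ht0 : 0 < t := by rw [ht]; positivity
  have ht8 : 8 * (L * ell) ≤ t := by
    have h1 : 8 * (L * ell) ≤ 8 * (2 * B * c * t) := by linarith
    have h2 : 8 * (2 * B * c * t) = (16 * B * c) * t := by ring
    have h3 : (16 * B * c) * t ≤ 1 * t := mul_le_mul_of_nonneg_right hc4 ht0.le
    linarith
  have htK : 2 * K * (L * ell) ≤ t := by
    have h1 : 2 * K * (L * ell) ≤ 2 * K * (2 * B * c * t) :=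
      mul_le_mul_of_nonneg_left htlow (by positivity)
    have h2 : 2 * K * (2 * B * c * t) = (4 * B * K * c) * t := by ring
    have h3 : (4 * B * K * c) * t ≤ 1 * t := mul_le_mul_of_nonneg_right hc2 ht0.le
    linarith
  have ht2 : 2 ≤ t := by linarith
  set w := ⌊Real.exp t⌋₊ with hw
  have hw1 : (w : ℝ) ≤ Real.exp t := Nat.floor_le (Real.exp_pos _).le
  have hw2 : Real.exp t < (w : ℝ) + 1 := Nat.lt_floor_add_one _
  have hhalf : 2 ≤ Real.exp (t / 2) := by
    have := Real.add_one_le_exp (t / 2)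
    linarith
  have hw3 : Real.exp (t / 2) ≤ (w : ℝ) := by
    have h1 : Real.exp t = Real.exp (t / 2) * Real.exp (t / 2) := by
      rw [← Real.exp_add]; congr 1; ring
    nlinarith
  have hw0 : (0 : ℝ) < w := by linarith
  have hlogw1 : Real.log (w : ℝ) ≤ t := by
    rw [← Real.log_exp t]; exact Real.log_le_log hw0 hw1
  have hlogw2 : t / 2 ≤ Real.log (w : ℝ) := by
    rw [← Real.log_exp (t / 2)]; exact Real.log_le_log (Real.exp_pos _) hw3
  -- D
  set D := c3 * lam * Y / (L * ell) with hD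
  have hD1 : (L * ell) * D = c3 * lam * Y := by rw [hD]; field_simp
  have hDup : D ≤ Y / 2 := by
    have h1 : (L * ell) * D ≤ (L * ell) * (Y / 2) := by
      rw [hD1]
      have h2 : c3 * lam ≤ 1 / 2 * (L * ell) := by
        apply mul_le_mul hc3' (by linarith) hlam0.le (by norm_num)
      have h3 : c3 * lam * Y ≤ 1 / 2 * (L * ell) * Y :=
        mul_le_mul_of_nonneg_right h2 (by linarith)
      linarith
    exact le_of_mul_le_mul_left h1 hLe
  have hD0 : 0 ≤ D := by rw [hD]; positivity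
  have hyD : (y : ℝ) * Real.exp (-D) = Real.exp (Y - D) := by
    rw [← hexpY, ← Real.exp_add]; congr 1
  set z := ⌊(y : ℝ) * Real.exp (-D)⌋₊ with hz
  have hz0' : 0 ≤ (y : ℝ) * Real.exp (-D) := by positivity
  have hz1 : (z : ℝ) ≤ (y : ℝ) * Real.exp (-D) := Nat.floor_le hz0'
  have hz2 : (y : ℝ) * Real.exp (-D) < (z : ℝ) + 1 := Nat.lt_floor_add_one _
  have hz3 : 2 ≤ (y : ℝ) * Real.exp (-D) := by
    rw [hyD]
    have := Real.add_one_le_exp (Y - D)
    linarith
  have hz4 : (y : ℝ) * Real.exp (-D) / 2 ≤ z := by linarith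
  have hz0 : (0 : ℝ) < z := by linarith
  have hzy : (z : ℝ) ≤ y := by
    refine hz1.trans ?_
    have : Real.exp (-D) ≤ 1 := Real.exp_le_one_iff.mpr (by linarith)
    nlinarith
  have htY : t ≤ Y / 4 := by
    have h1 : B * ell * t ≤ B * ell * (Y / 4) := by
      rw [ht1]
      have h2 : lam * Y ≤ ell * Y := mul_le_mul_of_nonneg_right hl21 (by linarith)
      have h3 : 4 * (ell * Y) ≤ B * (ell * Y) := mul_le_mul_of_nonneg_right hB (by positivity)
      linarith
    exact le_of_mul_le_mul_left h1 hBe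
  have hwz : w ≤ z := by
    apply Nat.floor_mono
    rw [hyD]
    exact Real.exp_le_exp.mpr (by linarith)
  -- delta
  set dl := c * lam / (L * ell) with hdl
  have hdl1 : (L * ell) * dl = c * lam := by rw [hdl]; field_simp
  have hdlh : dl ≤ 1 / 2 := by
    have h1 : (L * ell) * dl ≤ (L * ell) * (1 / 2) := by
      rw [hdl1]
      have h2 : c * lam ≤ 1 / 2 * (L * ell) := by
        apply mul_le_mul hc1 (by linarith) hlam0.le (by norm_num)
      linarith
    exact le_of_mul_le_mul_left h1 hLe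
  have hdD : dl * Lam ≤ D / 4 := by
    have h1 : (L * ell) * (dl * Lam) ≤ (L * ell) * (D / 4) := by
      have e1 : (L * ell) * (dl * Lam) = c * lam * Lam := by rw [← mul_assoc, hdl1]
      have e2 : (L * ell) * (D / 4) = c3 * lam * Y / 4 := by rw [← hD1]; ring
      rw [e1, e2]
      have h2 : (8 * c) * (lam * Lam) ≤ c3 * (lam * Lam) :=
        mul_le_mul_of_nonneg_right hc5 (by positivity)
      have h3 : c3 * lam * (Lam / 2) ≤ c3 * lam * Y := mul_le_mul_of_nonneg_left hYL (by positivity)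
      linarith
    exact le_of_mul_le_mul_left h1 hLe
  have helld : ell ≤ dl * Lam := by
    have h1 : (L * ell) * ell ≤ (L * ell) * (dl * Lam) := by
      have e1 : (L * ell) * (dl * Lam) = c * lam * Lam := by rw [← mul_assoc, hdl1]
      rw [e1]
      nlinarith
    exact le_of_mul_le_mul_left h1 hLe
  have h17 : 17 ≤ Real.exp (D / 4) := by
    have h1 : Real.exp ell ≤ Real.exp (D / 4) := Real.exp_le_exp.mpr (by linarith)
    linarith
  have hLD : L ≤ Real.exp (D / 4) := by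
    have h1 : Real.exp ell ≤ Real.exp (D / 4) := Real.exp_le_exp.mpr (by linarith)
    linarith
  set E := Real.exp (-(D / 4)) with hE
  have hE0 : 0 < E := Real.exp_pos _
  have hEE : Real.exp (D / 4) * E = 1 := by
    rw [hE, ← Real.exp_add]; simp
  have hE17 : E ≤ 1 / 17 := by
    have h1 : 17 * E ≤ Real.exp (D / 4) * E := mul_le_mul_of_nonneg_right h17 hE0.le
    linarith
  have hEL : L * E ≤ 1 := by
    have h1 : L * E ≤ Real.exp (D / 4) * E := mul_le_mul_of_nonneg_right hLD hE0.le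
    linarith
  have hE4 : Real.exp (-D) = E * E * E * E := by
    rw [hE, ← Real.exp_add, ← Real.exp_add, ← Real.exp_add]; congr 1; ring
  have hzE : (z : ℝ) ≤ H * (E * E * E) := by
    have h1 : (z : ℝ) ≤ L * H * Real.exp (-D) :=
      hz1.trans (mul_le_mul_of_nonneg_right hy1 (Real.exp_pos _).le)
    have h2 : L * H * Real.exp (-D) = (L * E) * (H * (E * E * E)) := by rw [hE4]; ring
    have h3 : (L * E) * (H * (E * E * E)) ≤ 1 * (H * (E * E * E)) :=
      mul_le_mul_of_nonneg_right hEL (by positivity)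
    linarith
  have hEsq : E * E ≤ 1 / 289 := by
    have h1 : E * E ≤ (1 / 17) * (1 / 17) := mul_le_mul hE17 hE17 hE0.le (by norm_num)
    norm_num at h1 ⊢
    linarith
  have hHE : 0 < H * E := by positivity
  have hz289 : (z : ℝ) ≤ (H * E) * (1 / 289) := by
    refine hzE.trans ?_
    have : H * (E * E * E) = (H * E) * (E * E) := by ring
    rw [this]
    exact mul_le_mul_of_nonneg_left hEsq hHE.le
  have h8z : 8 * (z : ℝ) ≤ H := by
    have h1 : H * E ≤ H * 1 := mul_le_mul_of_nonneg_left (by linarith) hH0.le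
    linarith
  have hpow : H ^ (1 - dl) = H * Real.exp (-(dl * Lam)) := by
    rw [Real.rpow_def_of_pos hH0, ← hLam]
    have e : Lam * (1 - dl) = Lam + -(dl * Lam) := by ring
    rw [e, Real.exp_add, hLam, Real.exp_log hH0]
  have hpow1 : H * E ≤ H ^ (1 - dl) := by
    rw [hpow]
    apply mul_le_mul_of_nonneg_left _ hH0.le
    rw [hE]
    exact Real.exp_le_exp.mpr (by linarith)
  have hpow2 : 6 ≤ H ^ (1 - dl) := by
    have h1 : Real.sqrt H ≤ H ^ (1 - dl) := by
      rw [Real.sqrt_eq_rpow]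
      exact Real.rpow_le_rpow_of_exponent_le (by linarith) (by linarith)
    have h2 : (6 : ℝ) ≤ Real.sqrt H := by
      apply Real.le_sqrt_of_sq_le
      linarith
    linarith
  refine ⟨w, z, ?_, hwz, ?_, h8z, ?_, ?_, ?_, ?_, ?_, ?_⟩
  · have : (2 : ℝ) ≤ (w : ℝ) := hhalf.trans hw3
    exact_mod_cast this
  · exact_mod_cast hzy
  · rw [← ht1]
    exact mul_le_mul_of_nonneg_left hlogw1 hBe.le
  · rw [← ht1]
    have h1 : 2 * B * ell * Real.log (w : ℝ) = B * ell * (2 * Real.log (w : ℝ)) := by ring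
    rw [h1]
    exact mul_le_mul_of_nonneg_left (by linarith) hBe.le
  · have h1 : K * L ≤ K * (L * ell) := by
      apply mul_le_mul_of_nonneg_left _ hK0.le
      nlinarith
    linarith
  · linarith
  · have h1 : Real.log ((y : ℝ) / z) ≤ Real.log (2 * Real.exp D) := by
      apply Real.log_le_log (by positivity)
      rw [div_le_iff₀ hz0]
      have h2 : (y : ℝ) = (y : ℝ) * Real.exp (-D) * Real.exp D := by
        rw [mul_assoc, ← Real.exp_add]; simp
      have h3 : (y : ℝ) * Real.exp (-D) * Real.exp D ≤ (2 * z) * Real.exp D :=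
        mul_le_mul_of_nonneg_right (by linarith) (Real.exp_pos _).le
      linarith
    rw [Real.log_mul (by norm_num) (Real.exp_pos _).ne', Real.log_exp] at h1
    have h2 := Real.log_two_lt_d9
    linarith
  · linarith

theorem para (B c3 K : ℝ) (hB : 4 ≤ B) (hc3 : 0 < c3) (hc3' : c3 ≤ 1 / 2) (hK : 1 ≤ K) :
    ∃ c : ℝ, 0 < c ∧ ∃ h0 : ℕ, ∀ (h : ℕ) (L : ℝ), h0 ≤ h → 1 ≤ L →
      L * l1 L ^ 2 ≤ c * Real.log (Real.log h) * l2 L →
      ∃ w z : ℕ, 2 ≤ w ∧ w ≤ z ∧ z ≤ ⌊L * Real.log h⌋₊ ∧ 8 * (z : ℝ) ≤ Real.log h ∧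
        B * l1 L * Real.log w ≤ l2 L * Real.log (⌊L * Real.log h⌋₊ : ℝ) ∧
        l2 L * Real.log (⌊L * Real.log h⌋₊ : ℝ) ≤ 2 * B * l1 L * Real.log w ∧
        K * L ≤ Real.log w ∧ 4 * l2 L ≤ Real.log w ∧
        Real.log ((⌊L * Real.log h⌋₊ : ℝ) / z) ≤
          1 + c3 * l2 L * Real.log (⌊L * Real.log h⌋₊ : ℝ) / (L * l1 L) ∧
        3 + 2 * (z : ℝ) ≤ Real.log h ^ (1 - c * l2 L / (L * l1 L)) := by
  have hB0 : 0 < B := by linarith
  have hK0 : 0 < K := by linarith
  obtain ⟨c, hc0, hc1, hc2, hc4, hc5⟩ : ∃ c : ℝ, 0 < c ∧ c ≤ 1 / 2 ∧ 4 * B * K * c ≤ 1 ∧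
      16 * B * c ≤ 1 ∧ 8 * c ≤ c3 := by
    refine ⟨min (1 / 2) (min (1 / (4 * B * K)) (min (1 / (16 * B)) (c3 / 8))), ?_, min_le_left _ _,
      ?_, ?_, ?_⟩
    · refine lt_min (by norm_num) (lt_min (by positivity) (lt_min (by positivity) (by positivity)))
    · have h1 : min (1 / 2) (min (1 / (4 * B * K)) (min (1 / (16 * B)) (c3 / 8))) ≤
          1 / (4 * B * K) := (min_le_right _ _).trans (min_le_left _ _)
      have h2 := mul_le_mul_of_nonneg_left h1 (show (0 : ℝ) ≤ 4 * B * K by positivity)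
      rwa [mul_one_div_cancel (by positivity)] at h2
    · have h1 : min (1 / 2) (min (1 / (4 * B * K)) (min (1 / (16 * B)) (c3 / 8))) ≤
          1 / (16 * B) := (min_le_right _ _).trans ((min_le_right _ _).trans (min_le_left _ _))
      have h2 := mul_le_mul_of_nonneg_left h1 (show (0 : ℝ) ≤ 16 * B by positivity)
      rwa [mul_one_div_cancel (by positivity)] at h2
    · have h1 : min (1 / 2) (min (1 / (4 * B * K)) (min (1 / (16 * B)) (c3 / 8))) ≤
          c3 / 8 := (min_le_right _ _).trans ((min_le_right _ _).trans (min_le_right _ _))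
      linarith
  refine ⟨c, hc0, ⌈Real.exp 36⌉₊, ?_⟩
  intro h L hh hL hstar
  have hH : 36 ≤ Real.log h := by
    have h1 : Real.exp 36 ≤ (h : ℝ) := (Nat.le_ceil _).trans (by exact_mod_cast hh)
    have := Real.log_le_log (Real.exp_pos _) h1
    rwa [Real.log_exp] at this
  exact para_core B c3 K c (Real.log h) L (l1 L) (l2 L) hB hc3 hc3' hK hc0 hc1 hc2 hc4 hc5 hH hL
    (l1_ge hL) (l2_ge hL) (l2_le hL) (exp_l1 hL) hstar

end Pool.Agent.H7.LG
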