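import Pool.Agent.H7.LG.Defs
import Pool.Agent.H7.LG.Pib

/-!
Module TBD. Sum of the von Mangoldt function over smooth numbers.

Proof. Write `η = κ / log w`, `0 < η ≤ 1/4`, and `w ^ η = exp κ`.
Case `N ≤ w`: `∑ d ∈ sm N w, Λ d ≤ Chebyshev.psi N ≤ (log 4 + 4) * N` (`Chebyshev.psi_le_const_mul_self`,
`sm N w ⊆ Ioc 0 N`, `Λ ≥ 0`) and `N = N ^ (1 - η) * N ^ η ≤ N ^ (1-η) * w ^ η`.
Case `w < N`: only prime powers `d = p ^ k` with `p ≤ w`, `1 ≤ k ≤ Nat.log p N` contribute, so the sum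
is at most `∑ p ∈ primesLE w, Nat.log p N * log p ≤ primeCounting w * log N` (compare the proof of
`Chebyshev.psi_eq_sum_mul_log_prime`; `Nat.log p N * log p ≤ log N` since `p ^ (Nat.log p N) ≤ N`).
Alternatively: restrict to `d ∈ sm N w` prime power: `Λ d = log (minFac d)`, and map
`d ↦ (minFac d, factorization)`.
By `pib` this is `≤ 4 w log N / log w`. Put `a = N / w ≥ 1`; `log N / log w = 1 + log a / log w ≤ 1 + log a`
(as `log w ≥ 4`), and `1 + log a ≤ 2 a ^ (3/4) ≤ 2 a ^ (1 - η)` (`(3/4) log a = log (a^(3/4)) ≤ a^(3/4) - 1`).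
So the sum is `≤ 8 w (N/w) ^ (1-η) = 8 w ^ η N ^ (1-η) = 8 exp κ N ^ (1-η)`. Take `C = 8`.
-/

set_option autoImplicit false

namespace Pool.Agent.H7.LG

theorem Tbd_fib (N p : ℕ) (hp : p.Prime) (hN : 1 ≤ N) (s : Finset ℕ)
    (hs : ∀ d ∈ s, IsPrimePow d ∧ d.minFac = p ∧ d ≤ N) :
    ∑ d ∈ s, ArithmeticFunction.vonMangoldt d ≤ Real.log N := by
  have h1 : ∀ d ∈ s, ArithmeticFunction.vonMangoldt d = Real.log p := by
    intro d hd
    rw [ArithmeticFunction.vonMangoldt_apply, if_pos (hs d hd).1, (hs d hd).2.1]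
  rw [Finset.sum_congr rfl h1, Finset.sum_const, nsmul_eq_mul]
  have h2 : s.card ≤ Nat.log p N := by
    have h3 : s ⊆ (Finset.Icc 1 (Nat.log p N)).image (fun k => p ^ k) := by
      intro d hd
      obtain ⟨hd1, hd2, hd3⟩ := hs d hd
      have h4 := hd1.minFac_pow_factorization_eq
      rw [hd2] at h4
      rw [Finset.mem_image]
      refine ⟨d.factorization p, ?_, h4⟩
      rw [Finset.mem_Icc]
      constructor
      · by_contra hcon
        have h5 : d.factorization p = 0 := by omega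
        rw [h5, pow_zero] at h4
        have h6 := hd1.one_lt
        omega
      · exact Nat.le_log_of_pow_le hp.one_lt (by rw [h4]; exact hd3)
    calc s.card ≤ ((Finset.Icc 1 (Nat.log p N)).image (fun k => p ^ k)).card :=
          Finset.card_le_card h3
      _ ≤ (Finset.Icc 1 (Nat.log p N)).card := Finset.card_image_le
      _ = Nat.log p N := by simp
  have h7 : 0 ≤ Real.log p := Real.log_natCast_nonneg p
  calc (s.card : ℝ) * Real.log p ≤ (Nat.log p N : ℝ) * Real.log p := by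
        apply mul_le_mul_of_nonneg_right _ h7
        exact_mod_cast h2
    _ = Real.log ((p : ℝ) ^ Nat.log p N) := by rw [Real.log_pow]
    _ ≤ Real.log N := by
        apply Real.log_le_log
        · have : (0 : ℝ) < p := by exact_mod_cast hp.pos
          positivity
        · exact_mod_cast Nat.pow_log_le_self p (by omega : N ≠ 0)

theorem Tbd_main (w N m : ℕ) (hN : 1 ≤ N) (hm : ∀ n : ℕ, n ≤ w → n ≤ N → n ≤ m) :
    ∑ d ∈ sm N w, ArithmeticFunction.vonMangoldt d ≤ (Nat.primeCounting m : ℝ) * Real.log N := by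
  classical
  have h1 : ∑ d ∈ sm N w, ArithmeticFunction.vonMangoldt d =
      ∑ d ∈ (sm N w).filter (fun d => IsPrimePow d), ArithmeticFunction.vonMangoldt d := by
    rw [Finset.sum_filter]
    refine Finset.sum_congr rfl fun d _ => ?_
    split_ifs with h
    · rfl
    · exact ArithmeticFunction.vonMangoldt_eq_zero_iff.2 h
  have h2 : ∀ d ∈ (sm N w).filter (fun d => IsPrimePow d), d.minFac ∈ Nat.primesLE m := by
    intro d hd
    rw [Finset.mem_filter, mem_sm] at hd
    obtain ⟨⟨⟨hd1, hd2⟩, hd3⟩, hd4⟩ := hd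
    have hne : d ≠ 1 := by
      have := hd4.one_lt
      omega
    have hp := Nat.minFac_prime hne
    rw [Nat.mem_primesLE]
    exact ⟨hm _ (hd3 _ hp (Nat.minFac_dvd d)) ((Nat.le_of_dvd (by omega) (Nat.minFac_dvd d)).trans hd2),
      hp⟩
  rw [h1, ← Finset.sum_fiberwise_of_maps_to h2]
  calc ∑ p ∈ Nat.primesLE m, ∑ d ∈ ((sm N w).filter (fun d => IsPrimePow d)).filter
          (fun d => d.minFac = p), ArithmeticFunction.vonMangoldt d
      ≤ ∑ p ∈ Nat.primesLE m, Real.log N := by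
        refine Finset.sum_le_sum fun p hp => ?_
        refine Tbd_fib N p (Nat.prime_of_mem_primesLE hp) hN _ ?_
        intro d hd
        rw [Finset.mem_filter, Finset.mem_filter, mem_sm] at hd
        exact ⟨hd.1.2, hd.2, hd.1.1.1.2⟩
    _ = (Nat.primeCounting m : ℝ) * Real.log N := by
        rw [Finset.sum_const, nsmul_eq_mul, Nat.primesLE_card_eq_primeCounting]

theorem tbd (w N : ℕ) (κ : ℝ) (hw : 2 ≤ w) (hκ : 1 ≤ κ) (hκw : 4 * κ ≤ Real.log w) (hN : 1 ≤ N) :
    ∑ d ∈ sm N w, ArithmeticFunction.vonMangoldt d ≤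
      8 * Real.exp κ * (N : ℝ) ^ (1 - κ / Real.log w) := by
  have hw0 : (0 : ℝ) < w := by exact_mod_cast (show 0 < w by omega)
  have hN0 : (0 : ℝ) < N := by exact_mod_cast (show 0 < N by omega)
  have hlw : 4 ≤ Real.log w := by linarith
  have hlw0 : 0 < Real.log w := by linarith
  set η : ℝ := κ / Real.log w with hη
  have hη0 : 0 < η := by positivity
  have hη1 : η ≤ 1 / 4 := by
    rw [hη, div_le_iff₀ hlw0]
    linarith
  have hwη : (w : ℝ) ^ η = Real.exp κ := by
    rw [Real.rpow_def_of_pos hw0, hη]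
    congr 1
    field_simp
  rw [← hwη]
  rcases Nat.le_total N w with hNw | hNw
  · have h1 := Tbd_main w N N hN (fun n _ h => h)
    have h2 := pib N
    have h3 : (N : ℝ) = (N : ℝ) ^ η * (N : ℝ) ^ (1 - η) := by
      rw [← Real.rpow_add hN0]
      simp
    have h4 : (N : ℝ) ^ η ≤ (w : ℝ) ^ η :=
      Real.rpow_le_rpow hN0.le (by exact_mod_cast hNw) hη0.le
    have h5 : 0 < (N : ℝ) ^ (1 - η) := Real.rpow_pos_of_pos hN0 _
    have h6 : (N : ℝ) ≤ (w : ℝ) ^ η * (N : ℝ) ^ (1 - η) := by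
      calc (N : ℝ) = (N : ℝ) ^ η * (N : ℝ) ^ (1 - η) := h3
        _ ≤ (w : ℝ) ^ η * (N : ℝ) ^ (1 - η) := mul_le_mul_of_nonneg_right h4 h5.le
    calc ∑ d ∈ sm N w, ArithmeticFunction.vonMangoldt d ≤ 4 * (N : ℝ) := h1.trans h2
      _ ≤ 8 * ((w : ℝ) ^ η * (N : ℝ) ^ (1 - η)) := by linarith
      _ = 8 * (w : ℝ) ^ η * (N : ℝ) ^ (1 - η) := by ring
  · have h1 := Tbd_main w N w hN (fun n h _ => h)
    have h2 := pib w
    set a : ℝ := (N : ℝ) / w with ha
    have ha1 : 1 ≤ a := by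
      rw [ha, one_le_div hw0]
      exact_mod_cast hNw
    have ha0 : 0 < a := by linarith
    have hNa : (N : ℝ) = w * a := by
      rw [ha]
      field_simp
    have hla : 0 ≤ Real.log a := Real.log_nonneg ha1
    have hlN : Real.log N = Real.log w + Real.log a := by
      rw [hNa, Real.log_mul hw0.ne' ha0.ne']
    have hb0 : 0 < a ^ (1 - η) := Real.rpow_pos_of_pos ha0 _
    have hlb : Real.log (a ^ (1 - η)) = (1 - η) * Real.log a := Real.log_rpow ha0 _
    have hlb2 := Real.log_le_sub_one_of_pos hb0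
    have h3 : 1 + Real.log a ≤ 2 * a ^ (1 - η) := by
      have h4 : 3 / 4 * Real.log a ≤ (1 - η) * Real.log a :=
        mul_le_mul_of_nonneg_right (by linarith) hla
      linarith
    have h5 : Real.log N ≤ Real.log w * (1 + Real.log a) := by
      rw [hlN]
      nlinarith
    have h6 : (w : ℝ) = (w : ℝ) ^ η * (w : ℝ) ^ (1 - η) := by
      rw [← Real.rpow_add hw0]
      simp
    have h7 : (N : ℝ) ^ (1 - η) = (w : ℝ) ^ (1 - η) * a ^ (1 - η) := by
      rw [hNa, Real.mul_rpow hw0.le ha0.le]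
    have hpc : (0 : ℝ) ≤ (Nat.primeCounting w : ℝ) := Nat.cast_nonneg _
    calc ∑ d ∈ sm N w, ArithmeticFunction.vonMangoldt d
        ≤ (Nat.primeCounting w : ℝ) * Real.log N := h1
      _ ≤ (Nat.primeCounting w : ℝ) * (Real.log w * (1 + Real.log a)) :=
          mul_le_mul_of_nonneg_left h5 hpc
      _ = ((Nat.primeCounting w : ℝ) * Real.log w) * (1 + Real.log a) := by ring
      _ ≤ (4 * w) * (1 + Real.log a) := mul_le_mul_of_nonneg_right h2 (by linarith)
      _ ≤ (4 * w) * (2 * a ^ (1 - η)) := mul_le_mul_of_nonneg_left h3 (by positivity)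
      _ = 8 * w * a ^ (1 - η) := by ring
      _ = 8 * ((w : ℝ) ^ η * (w : ℝ) ^ (1 - η)) * a ^ (1 - η) := by rw [← h6]
      _ = 8 * (w : ℝ) ^ η * (N : ℝ) ^ (1 - η) := by rw [h7]; ring

end Pool.Agent.H7.LG
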