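import Pool.Agent.H7.LG.Eul
import Pool.Agent.H7.LG.Tbd

/-!
Module SMO. Upper bound for the number of smooth integers, without loss of a logarithm.

Proof. `card (sm y w) * log y = ∑ n ∈ sm y w, log n + ∑ n ∈ sm y w, log (y / n)`.
(1) `∑ n ∈ sm y w, log (y/n) ≤ ∑ n ∈ Icc 1 y, log (y/n) = log (y ^ y / y!) ≤ y`
    (`Real.pow_div_factorial_le_exp` or `Nat.factorial` lower bound; `log (y!) = ∑ log n`).
(2) `log n = ∑ d ∈ n.divisors, Λ d` (`ArithmeticFunction.vonMangoldt_sum`), and for `n ∈ sm y w`, `d ∣ n`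
    put `m = n / d`: then `m ∈ sm y w`, `d ∈ sm (y / m) w` (natural division, `d ≤ y / m`). The map
    `(n, d) ↦ (n / d, d)` is injective, so
    `∑ n ∈ sm y w, log n ≤ ∑ m ∈ sm y w, ∑ d ∈ sm (y / m) w, Λ d`.
(3) by `tbd` (with `N = y / m ≥ 1`) the inner sum is `≤ 8 exp κ (y/m) ^ (1 - η)`, `η = κ / log w`
    (`((y/m : ℕ):ℝ) ≤ (y:ℝ)/m`, exponent `≥ 0`).
(4) `∑ m ∈ sm y w, m ^ (-(1-η)) ≤ ∏ p ∈ (w+1).primesBelow, (1 - p ^ (-(1-η)))⁻¹`
    (`Pool.Agent.H93.DC.smooth_sum_le` with `s = 1 - η`, `Y = w + 1`; members of `sm y w` lie in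
    `(w+1).smoothNumbers`), then `eul`: `≤ C log w exp (C exp κ)`.
(5) `y ^ (1-η) = y * exp (-(κ log y / log w))`.
Total: `8 exp κ * y * exp (-(κ log y/log w)) * C log w * exp (C exp κ) + y`, and
`exp κ ≤ exp (exp κ)`. So `8 C + 1` works as the constant here.
-/

set_option autoImplicit false

namespace Pool.Agent.H7.LG

theorem smo_log (y : ℕ) (hy : 1 ≤ y) (S : Finset ℕ) (hS : S ⊆ Finset.Icc 1 y) :
    (S.card : ℝ) * Real.log y ≤ ∑ n ∈ S, Real.log n + y := by
  have hy0 : (0 : ℝ) < y := by exact_mod_cast hy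
  have h1 : ∑ n ∈ Finset.Icc 1 y, Real.log n = Real.log (y.factorial : ℝ) := by
    have hI : Finset.Icc 1 y = Finset.Ico 1 (y + 1) := by
      ext n
      simp [Nat.lt_succ_iff]
    rw [← Finset.prod_Ico_id_eq_factorial, ← hI]
    push_cast
    rw [Real.log_prod]
    intro n hn
    have := (Finset.mem_Icc.1 hn).1
    have : (0 : ℝ) < n := by exact_mod_cast this
    exact this.ne'
  have h2 : ∑ n ∈ Finset.Icc 1 y, (Real.log y - Real.log n) ≤ y := by
    rw [Finset.sum_sub_distrib, h1, Finset.sum_const, Nat.card_Icc, nsmul_eq_mul,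
      Nat.add_sub_cancel]
    have h3 := Real.pow_div_factorial_le_exp (y : ℝ) hy0.le y
    have hf : (0 : ℝ) < y.factorial := by exact_mod_cast Nat.factorial_pos y
    have h4 := Real.log_le_log (by positivity) h3
    rw [Real.log_exp, Real.log_div (by positivity) hf.ne', Real.log_pow] at h4
    exact h4
  have h3 : ∑ n ∈ S, (Real.log y - Real.log n) ≤ ∑ n ∈ Finset.Icc 1 y, (Real.log y - Real.log n) := by
    apply Finset.sum_le_sum_of_subset_of_nonneg hS
    intro n hn _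
    have h5 := Finset.mem_Icc.1 hn
    have h6 : (0 : ℝ) < n := by exact_mod_cast h5.1
    have h7 : (n : ℝ) ≤ y := by exact_mod_cast h5.2
    have := Real.log_le_log h6 h7
    linarith
  rw [Finset.sum_sub_distrib, Finset.sum_const, nsmul_eq_mul] at h3
  linarith

theorem smo_dbl (y w : ℕ) :
    ∑ n ∈ sm y w, Real.log n ≤
      ∑ m ∈ sm y w, ∑ d ∈ sm (y / m) w, ArithmeticFunction.vonMangoldt d := by
  classical
  have h1 : ∑ n ∈ sm y w, Real.log n = ∑ n ∈ sm y w, ∑ d ∈ n.divisors, ArithmeticFunction.vonMangoldt d :=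
    Finset.sum_congr rfl fun n _ => ArithmeticFunction.vonMangoldt_sum.symm
  rw [h1, Finset.sum_sigma', Finset.sum_sigma']
  have hdiv : ∀ q ∈ (sm y w).sigma (fun n => n.divisors), q.2 ∣ q.1 ∧ 0 < q.1 ∧ 0 < q.2 := by
    intro q hq
    rw [Finset.mem_sigma] at hq
    have h2 := Nat.dvd_of_mem_divisors hq.2
    have h3 := (mem_sm.1 hq.1).1.1
    exact ⟨h2, h3, Nat.pos_of_dvd_of_pos h2 h3⟩
  have hinj : Set.InjOn (fun q : (_ : ℕ) × ℕ => (⟨q.1 / q.2, q.2⟩ : (_ : ℕ) × ℕ))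
      ((sm y w).sigma (fun n => n.divisors)) := by
    rintro ⟨n, d⟩ hq ⟨n', d'⟩ hq' heq
    obtain ⟨h2, h3, h4⟩ := hdiv _ hq
    obtain ⟨h2', h3', h4'⟩ := hdiv _ hq'
    simp only [Sigma.mk.injEq, heq_eq_eq] at heq ⊢
    simp only at h2 h2' h3 h3'
    obtain ⟨e1, e2⟩ := heq
    subst e2
    refine ⟨?_, rfl⟩
    have h5 := Nat.div_mul_cancel h2
    have h6 := Nat.div_mul_cancel h2'
    rw [← h5, ← h6, e1]
  calc ∑ q ∈ (sm y w).sigma (fun n => n.divisors), ArithmeticFunction.vonMangoldt q.2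
      = ∑ q ∈ ((sm y w).sigma (fun n => n.divisors)).image
          (fun q : (_ : ℕ) × ℕ => (⟨q.1 / q.2, q.2⟩ : (_ : ℕ) × ℕ)), ArithmeticFunction.vonMangoldt q.2 := by
        rw [Finset.sum_image hinj]
    _ ≤ _ := by
        apply Finset.sum_le_sum_of_subset_of_nonneg
        · intro q hq
          obtain ⟨q', hq', rfl⟩ := Finset.mem_image.1 hq
          obtain ⟨h2, h3, h4⟩ := hdiv _ hq'
          rw [Finset.mem_sigma] at hq' ⊢
          have h5 := mem_sm.1 hq'.1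
          have h6 : 0 < q'.1 / q'.2 := Nat.div_pos (Nat.le_of_dvd h3 h2) h4
          refine ⟨mem_sm.2 ⟨⟨h6, (Nat.div_le_self _ _).trans h5.1.2⟩, fun p hp hpd =>
            h5.2 p hp (hpd.trans (Nat.div_dvd_of_dvd h2))⟩, mem_sm.2 ⟨⟨h4, ?_⟩, fun p hp hpd =>
            h5.2 p hp (hpd.trans h2)⟩⟩
          change q'.2 ≤ y / (q'.1 / q'.2)
          rw [Nat.le_div_iff_mul_le h6, Nat.mul_div_cancel' h2]
          exact h5.1.2
        · intro q _ _
          exact ArithmeticFunction.vonMangoldt_nonneg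

theorem smo : ∃ C : ℝ, 1 ≤ C ∧ ∀ (y w : ℕ) (κ : ℝ), 2 ≤ y → 2 ≤ w → 1 ≤ κ → 4 * κ ≤ Real.log w →
    ((sm y w).card : ℝ) * Real.log y ≤
      C * y * (Real.exp (C * Real.exp κ - κ * Real.log y / Real.log w) * Real.log w + 1) := by
  obtain ⟨C0, hC0, heul⟩ := eul
  refine ⟨8 * C0 + 1, by linarith, ?_⟩
  intro y w κ hy hw hκ hκw
  have hy0 : (0 : ℝ) < y := by positivity
  have hlw : 0 < Real.log w := by linarith
  set η := κ / Real.log w with hη
  have hη0 : 0 < η := by positivity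
  have hη1 : η ≤ 1 / 4 := by
    rw [hη, div_le_iff₀ hlw]
    linarith
  have h1 := smo_log y (by omega) (sm y w) (fun n hn => Finset.mem_Icc.2 (mem_sm.1 hn).1)
  have h2 := smo_dbl y w
  have h3 : ∑ m ∈ sm y w, ∑ d ∈ sm (y / m) w, ArithmeticFunction.vonMangoldt d ≤
      ∑ m ∈ sm y w, 8 * Real.exp κ * ((y : ℝ) ^ (1 - η) * (m : ℝ) ^ (-(1 - η))) := by
    apply Finset.sum_le_sum
    intro m hm
    have hm1 := (mem_sm.1 hm).1
    have hm0 : (0 : ℝ) < m := by exact_mod_cast hm1.1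
    have h4 := tbd w (y / m) κ hw hκ hκw ((Nat.one_le_div_iff hm1.1).2 hm1.2)
    refine h4.trans (mul_le_mul_of_nonneg_left ?_ (by positivity))
    rw [← hη]
    calc (((y / m : ℕ) : ℝ)) ^ (1 - η) ≤ ((y : ℝ) / m) ^ (1 - η) :=
          Real.rpow_le_rpow (Nat.cast_nonneg _) Nat.cast_div_le (by linarith)
      _ = (y : ℝ) ^ (1 - η) * (m : ℝ) ^ (-(1 - η)) := by
          rw [Real.div_rpow hy0.le hm0.le, Real.rpow_neg hm0.le, div_eq_mul_inv]
  have h4 : ∑ m ∈ sm y w, (m : ℝ) ^ (-(1 - η)) ≤ C0 * Real.log w * Real.exp (C0 * Real.exp κ) := by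
    refine (Pool.Agent.H93.DC.smooth_sum_le (s := 1 - η) (by linarith) (w + 1) (sm y w) ?_).trans
      (heul w κ hw hκ hκw)
    intro m hm
    rw [Nat.mem_smoothNumbers']
    intro p hp hpd
    exact Nat.lt_succ_of_le ((mem_sm.1 hm).2 p hp hpd)
  have h5 : (y : ℝ) ^ (1 - η) = y * Real.exp (-(κ * Real.log y / Real.log w)) := by
    rw [sub_eq_add_neg, Real.rpow_add hy0, Real.rpow_one, Real.rpow_def_of_pos hy0]
    congr 2
    rw [hη]
    ring
  have h6 : ∑ m ∈ sm y w, 8 * Real.exp κ * ((y : ℝ) ^ (1 - η) * (m : ℝ) ^ (-(1 - η))) =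
      8 * Real.exp κ * (y : ℝ) ^ (1 - η) * ∑ m ∈ sm y w, (m : ℝ) ^ (-(1 - η)) := by
    rw [Finset.mul_sum]
    exact Finset.sum_congr rfl fun m _ => by ring
  have h7 : 8 * Real.exp κ * (y : ℝ) ^ (1 - η) * ∑ m ∈ sm y w, (m : ℝ) ^ (-(1 - η)) ≤
      8 * Real.exp κ * (y : ℝ) ^ (1 - η) * (C0 * Real.log w * Real.exp (C0 * Real.exp κ)) :=
    mul_le_mul_of_nonneg_left h4 (by positivity)
  have h8 : Real.exp κ ≤ Real.exp (Real.exp κ) := by
    apply Real.exp_le_exp.2
    linarith [Real.add_one_le_exp κ]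
  have h9 : 8 * Real.exp κ * (y : ℝ) ^ (1 - η) * (C0 * Real.log w * Real.exp (C0 * Real.exp κ)) ≤
      8 * C0 * y * (Real.exp ((8 * C0 + 1) * Real.exp κ - κ * Real.log y / Real.log w) * Real.log w) := by
    rw [h5]
    have e1 : Real.exp κ * Real.exp (-(κ * Real.log y / Real.log w)) * Real.exp (C0 * Real.exp κ) ≤
        Real.exp ((8 * C0 + 1) * Real.exp κ - κ * Real.log y / Real.log w) := by
      calc Real.exp κ * Real.exp (-(κ * Real.log y / Real.log w)) * Real.exp (C0 * Real.exp κ)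
          ≤ Real.exp (Real.exp κ) * Real.exp (-(κ * Real.log y / Real.log w)) *
            Real.exp (C0 * Real.exp κ) := by gcongr
        _ = Real.exp (Real.exp κ + -(κ * Real.log y / Real.log w) + C0 * Real.exp κ) := by
            rw [Real.exp_add, Real.exp_add]
        _ ≤ _ := by
            apply Real.exp_le_exp.2
            have : 0 < Real.exp κ := Real.exp_pos κ
            nlinarith
    calc 8 * Real.exp κ * (y * Real.exp (-(κ * Real.log y / Real.log w))) *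
          (C0 * Real.log w * Real.exp (C0 * Real.exp κ))
        = 8 * C0 * y * ((Real.exp κ * Real.exp (-(κ * Real.log y / Real.log w)) *
            Real.exp (C0 * Real.exp κ)) * Real.log w) := by ring
      _ ≤ _ := by gcongr
  set E := Real.exp ((8 * C0 + 1) * Real.exp κ - κ * Real.log y / Real.log w) * Real.log w with hE
  have hE0 : 0 ≤ E := by positivity
  calc ((sm y w).card : ℝ) * Real.log y ≤ 8 * C0 * y * E + y := by linarith
    _ ≤ (8 * C0 + 1) * y * (E + 1) := by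
        have : 0 ≤ y * E := by positivity
        nlinarith

end Pool.Agent.H7.LG
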